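import Pool.Agent.Lib.MP_5d68ca_lc.Spread

open FirstOrder FirstOrder.Language Filter Set

namespace Pool.Agent.Lib.MP_5d68ca_lc

variable {L : FirstOrder.Language.{0, 0}} {T : L.Theory} {C : Type}

/-- A model of `T` with an assignment of the names. -/
structure Pt (T : L.Theory) (C : Type) : Type 1 where
  M : Type
  [str : L.Structure M]
  [ne : Nonempty M]
  mod : M ⊨ T
  v : C → M

attribute [instance] Pt.str Pt.ne

/-- A formula with names substituted for its variables. -/
def Atom (L : FirstOrder.Language.{0, 0}) (C : Type) : Type :=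
  Σ n : ℕ, L.Formula (Fin n) × (Fin n → C)

/-- Truth of an atom. -/
def Pt.holds (P : Pt T C) (A : Atom L C) : Prop := A.2.1.Realize (P.v ∘ A.2.2)

/-- Pull back along a renaming. -/
def Pt.comp (P : Pt T C) (g : C → C) : Pt T C := ⟨P.M, P.mod, P.v ∘ g⟩

/-- Renaming in an atom. -/
def Atom.map (g : C → C) (A : Atom L C) : Atom L C := ⟨A.1, A.2.1, g ∘ A.2.2⟩

/-- Negation of an atom. -/
def Atom.neg (A : Atom L C) : Atom L C := ⟨A.1, A.2.1.not, A.2.2⟩

lemma holds_comp (P : Pt T C) (g : C → C) (A : Atom L C) :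
    (P.comp g).holds A ↔ P.holds (A.map g) := Iff.rfl

lemma holds_neg (P : Pt T C) (A : Atom L C) : P.holds A.neg ↔ ¬P.holds A := Iff.rfl

lemma exists_atom {α : Type} [Finite α] (θ : L.Formula α) (c : α → C) :
    ∃ A : Atom L C, (∀ r, ∃ a, A.2.2 r = c a) ∧
      ∀ (P : Pt T C) (g : C → C), P.holds (A.map g) ↔ θ.Realize (P.v ∘ g ∘ c) := by
  obtain ⟨n, ⟨e⟩⟩ := Finite.exists_equiv_fin α
  refine ⟨⟨n, θ.relabel e, c ∘ e.symm⟩, fun r => ⟨_, rfl⟩, fun P g => ?_⟩
  simp only [Pt.holds, Atom.map, Formula.realize_relabel]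
  rw [iff_iff_eq]
  congr 1
  funext a
  simp

theorem exists_lim {J : Type} (u : Ultrafilter J) (P : J → Pt T C) :
    ∃ Q : Pt T C, ∀ A, Q.holds A ↔ ∀ᶠ j in u, (P j).holds A := by
  have hm : (u : Filter J).Product (fun j => (P j).M) ⊨ T := by
    rw [Theory.model_iff]
    intro φ hφ
    rw [Ultraproduct.sentence_realize]
    exact Eventually.of_forall fun j => (P j).mod.realize_of_mem φ hφ
  refine ⟨⟨_, hm, fun c => ((fun j => (P j).v c : ∀ j, (P j).M) :
    (u : Filter J).Product fun j => (P j).M)⟩, fun A => ?_⟩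
  exact Ultraproduct.realize_formula_cast A.2.1 fun r j => (P j).v (A.2.2 r)

theorem compact {ι : Type} (A : ι → Atom L C)
    (h : ∀ F : Finset ι, ∃ P : Pt T C, ∀ t ∈ F, P.holds (A t)) :
    ∃ P : Pt T C, ∀ t, P.holds (A t) := by
  classical
  choose P hP using h
  obtain ⟨Q, hQ⟩ := exists_lim (Ultrafilter.of (atTop : Filter (Finset ι))) P
  refine ⟨Q, fun t => (hQ _).2 ?_⟩
  refine ((eventually_ge_atTop ({t} : Finset ι)).filter_mono (Ultrafilter.of_le _)).mono
    fun F hF => ?_
  exact hP F t (hF (Finset.mem_singleton_self t))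

/-- Closed classes of pointed models. -/
def Closed (X : Set (Pt T C)) : Prop :=
  ∀ Q : Pt T C, (∀ F : Finset (Atom L C), ∃ P ∈ X, ∀ A ∈ F, (P.holds A ↔ Q.holds A)) → Q ∈ X

lemma Closed.inter {X Y : Set (Pt T C)} (hX : Closed X) (hY : Closed Y) : Closed (X ∩ Y) :=
  fun Q h => ⟨hX Q fun F => (h F).imp fun _ hP => ⟨hP.1.1, hP.2⟩,
    hY Q fun F => (h F).imp fun _ hP => ⟨hP.1.2, hP.2⟩⟩

lemma closed_forall {ι : Sort*} {X : ι → Pt T C → Prop} (h : ∀ i, Closed {P | X i P}) :
    Closed {P | ∀ i, X i P} :=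
  fun Q hQ i => h i Q fun F => (hQ F).imp fun _ hP => ⟨hP.1 i, hP.2⟩

lemma closed_iff (A B : Atom L C) : Closed {P : Pt T C | P.holds A ↔ P.holds B} := by
  classical
  intro Q h
  obtain ⟨P, hP, hA⟩ := h {A, B}
  have h1 := hA A (by simp)
  have h2 := hA B (by simp)
  exact h1.symm.trans (hP.trans h2)

lemma closed_holds_iff (A : Atom L C) (p : Prop) : Closed {P : Pt T C | p ↔ P.holds A} := by
  intro Q h
  obtain ⟨P, hP, hA⟩ := h {A}
  exact Iff.trans hP (hA A (by simp))

lemma closed_realize {α : Type} [Finite α] (θ : L.Formula α) (c : α → C) :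
    Closed {P : Pt T C | θ.Realize (P.v ∘ c)} := by
  obtain ⟨A, -, hA⟩ := exists_atom (T := T) θ c
  intro Q h
  obtain ⟨P, hP, hB⟩ := h {A}
  exact (hA Q id).1 ((hB A (by simp)).1 ((hA P id).2 hP))

lemma Closed.lim_mem {X : Set (Pt T C)} (hX : Closed X) {J : Type} {u : Ultrafilter J}
    {P : J → Pt T C} {Q : Pt T C} (hQ : ∀ A, Q.holds A ↔ ∀ᶠ j in u, (P j).holds A)
    (hP : ∀ᶠ j in u, P j ∈ X) : Q ∈ X := by
  refine hX Q fun F => ?_
  have h1 : ∀ᶠ j in u, ∀ A ∈ F, ((P j).holds A ↔ Q.holds A) := by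
    rw [Filter.eventually_all_finset]
    intro A _
    by_cases hA : Q.holds A
    · exact ((hQ A).1 hA).mono fun j hj => iff_of_true hj hA
    · exact (Ultrafilter.eventually_not.2 (mt (hQ A).2 hA)).mono fun j hj => iff_of_false hj hA
  obtain ⟨j, hj⟩ := (hP.and h1).exists
  exact ⟨P j, hj⟩

theorem compact_closed {ι : Type} (X : ι → Set (Pt T C)) (hX : ∀ t, Closed (X t))
    (h : ∀ F : Finset ι, ∃ P : Pt T C, ∀ t ∈ F, P ∈ X t) : ∃ P : Pt T C, ∀ t, P ∈ X t := by
  classical
  choose P hP using h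
  obtain ⟨Q, hQ⟩ := exists_lim (Ultrafilter.of (atTop : Filter (Finset ι))) P
  refine ⟨Q, fun t => (hX t).lim_mem hQ ?_⟩
  refine ((eventually_ge_atTop ({t} : Finset ι)).filter_mono (Ultrafilter.of_le _)).mono
    fun F hF => ?_
  exact hP F t (hF (Finset.mem_singleton_self t))

variable {W D : Type} [LinearOrder W] (lev : D → W)

/-- The name of the copy of `d` at the point `pt`. -/
def nm (d : D) (pt : W → ℕ) : D × (W → ℕ) := (d, fun i => if i ≤ lev d then pt i else 0)

/-- Moving names along coordinatewise maps. -/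
def mv (H : W → ℕ → ℕ) (c : D × (W → ℕ)) : D × (W → ℕ) :=
  (c.1, fun i => if i ≤ lev c.1 then H i (c.2 i) else c.2 i)

lemma mv_nm (H : W → ℕ → ℕ) (d : D) (pt : W → ℕ) :
    mv lev H (nm lev d pt) = nm lev d fun i => H i (pt i) := by
  simp only [mv, nm]
  congr 1
  funext i
  split_ifs <;> rfl

lemma mv_mv (H H' : W → ℕ → ℕ) (c : D × (W → ℕ)) :
    mv lev H (mv lev H' c) = mv lev (fun i => H i ∘ H' i) c := by
  simp only [mv]
  congr 1
  funext i
  split_ifs <;> rfl

lemma map_mv_mv (H H' : W → ℕ → ℕ) (A : Atom L (D × (W → ℕ))) :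
    (A.map (mv lev H')).map (mv lev H) = A.map (mv lev fun i => H i ∘ H' i) := by
  simp only [Atom.map]
  congr 2
  funext r
  exact mv_mv lev H H' _

lemma nm_congr {d : D} {pt pt' : W → ℕ} (h : ∀ i ≤ lev d, pt i = pt' i) :
    nm lev d pt = nm lev d pt' := by
  simp only [nm]
  congr 1
  funext i
  split_ifs with hi
  · exact h i hi
  · rfl

/-- Admissible moves. -/
def Mv (H : W → ℕ → ℕ) : Prop := (∀ i, StrictMono (H i)) ∧ {i | H i ≠ id}.Finite

/-- The move along one coordinate. -/
def one (i : W) (h : ℕ → ℕ) : W → ℕ → ℕ := Function.update (fun _ => id) i h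

lemma Mv.update {H : W → ℕ → ℕ} (hH : Mv H) (i : W) {h : ℕ → ℕ} (hh : StrictMono h) :
    Mv (Function.update H i h) := by
  refine ⟨fun j => ?_, (hH.2.insert i).subset fun j hj => ?_⟩
  · by_cases hj : j = i
    · subst hj; simpa using hh
    · simpa [hj] using hH.1 j
  · by_cases hji : j = i
    · exact Or.inl hji
    · exact Or.inr (by simpa [hji] using hj)

lemma mv_one (i : W) {h : ℕ → ℕ} (hh : StrictMono h) : Mv (one i h) :=
  Mv.update ⟨fun _ => strictMono_id, by simp⟩ i hh

lemma one_comp (H : W → ℕ → ℕ) (i : W) (h : ℕ → ℕ) :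
    (fun j => one i h j ∘ Function.update H i id j) = Function.update H i h := by
  funext j
  by_cases hj : j = i
  · subst hj; simp [one]
  · simp [one, hj]

/-- Invariance under all admissible moves. -/
def Inv (P : Pt T (D × (W → ℕ))) : Prop :=
  ∀ H, Mv H → ∀ A, P.holds (A.map (mv lev H)) ↔ P.holds A

lemma fix_one {X : Set (Pt T (D × (W → ℕ)))} (hX : Closed X) (hne : X.Nonempty)
    (hst : ∀ P ∈ X, ∀ H, Mv H → P.comp (mv lev H) ∈ X) (i : W) :
    ∃ Q ∈ X, ∀ h, StrictMono h → ∀ A, Q.holds (A.map (mv lev (one i h))) ↔ Q.holds A := by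
  obtain ⟨P, hP⟩ := hne
  obtain ⟨w, hw, hs⟩ := exists_spread
  obtain ⟨Q, hQ⟩ := exists_lim w fun h => P.comp (mv lev (one i h))
  refine ⟨Q, hX.lim_mem hQ (hw.mono fun h hh => hst P hP _ (mv_one i hh)), fun h0 hh0 A => ?_⟩
  rw [hQ, hQ]
  simp only [holds_comp, map_mv_mv]
  have e : ∀ h : ℕ → ℕ, (fun j => one i h j ∘ one i h0 j) = one i (h ∘ h0) := by
    intro h
    funext j
    by_cases hj : j = i
    · subst hj; simp [one]
    · simp [one, hj]
  simp only [e]
  refine hs (Finset.univ.sup (fun r => (A.2.2 r).2 i) + 1)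
    (fun h => P.holds (A.map (mv lev (one i h)))) (fun h h' hh => ?_) h0 hh0
  have e2 : A.map (mv lev (one i h)) = A.map (mv lev (one i h')) := by
    simp only [Atom.map]
    congr 2
    funext r
    simp only [Function.comp, mv]
    congr 1
    funext j
    split_ifs with hj
    · by_cases hji : j = i
      · subst hji
        simp only [one, Function.update_self]
        exact hh _ (Nat.lt_succ_of_le
          (Finset.le_sup (f := fun r => (A.2.2 r).2 j) (Finset.mem_univ r)))
      · simp [one, hji]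
    · rfl
  show P.holds _ ↔ P.holds _
  rw [e2]

theorem exists_inv {X : Set (Pt T (D × (W → ℕ)))} (hX : Closed X) (hne : X.Nonempty)
    (hst : ∀ P ∈ X, ∀ H, Mv H → P.comp (mv lev H) ∈ X) : ∃ Q ∈ X, Inv lev Q := by
  classical
  let Y : W → Set (Pt T (D × (W → ℕ))) := fun i =>
    {P | ∀ h, StrictMono h → ∀ A, P.holds (A.map (mv lev (one i h))) ↔ P.holds A}
  have hYc : ∀ i, Closed (Y i) := fun i =>
    closed_forall fun h => closed_forall fun _ => closed_forall fun A => closed_iff _ _
  have hYs : ∀ i, ∀ P ∈ Y i, ∀ H, Mv H → P.comp (mv lev H) ∈ Y i := by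
    intro i P hP H hH h hh A
    rw [holds_comp, holds_comp, map_mv_mv]
    have e1 : (fun j => H j ∘ one i h j) = Function.update H i (H i ∘ h) := by
      funext j
      by_cases hj : j = i
      · subst hj; simp [one]
      · simp [one, hj]
    have e2 : H = Function.update H i (H i) := by simp
    rw [e1, ← one_comp, ← map_mv_mv, hP _ ((hH.1 i).comp hh)]
    conv_rhs => rw [e2, ← one_comp, ← map_mv_mv, hP _ (hH.1 i)]
  have key : ∀ u : Finset W, (X ∩ {P | ∀ i ∈ u, P ∈ Y i}).Nonempty := by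
    intro u
    induction u using Finset.induction_on with
    | empty => simpa using hne
    | insert i u _ ih =>
      obtain ⟨Q, hQ, hQi⟩ := fix_one lev
        (hX.inter (closed_forall fun j => closed_forall fun _ => hYc j)) ih
        (fun P hP H hH => ⟨hst P hP.1 H hH, fun j hj => hYs j P (hP.2 j hj) H hH⟩) i
      refine ⟨Q, hQ.1, fun j hj => ?_⟩
      rcases Finset.mem_insert.1 hj with rfl | hj
      · exact hQi
      · exact hQ.2 j hj
  choose P hP using key
  obtain ⟨Q, hQ⟩ := exists_lim (Ultrafilter.of (atTop : Filter (Finset W))) P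
  have hQY : ∀ i, Q ∈ Y i := fun i => (hYc i).lim_mem hQ
    (((eventually_ge_atTop ({i} : Finset W)).filter_mono (Ultrafilter.of_le _)).mono fun u hu =>
      (hP u).2 i (hu (Finset.mem_singleton_self i)))
  refine ⟨Q, hX.lim_mem hQ (Eventually.of_forall fun u => (hP u).1), ?_⟩
  have main : ∀ (u : Finset W) (H : W → ℕ → ℕ), (∀ i, StrictMono (H i)) → (∀ i ∉ u, H i = id) →
      ∀ A, Q.holds (A.map (mv lev H)) ↔ Q.holds A := by
    intro u
    induction u using Finset.induction_on with
    | empty =>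
      intro H _ hH A
      have : A.map (mv lev H) = A := by
        obtain ⟨n, φ, c⟩ := A
        simp only [Atom.map]
        congr 2
        funext r
        simp [mv, hH]
      rw [this]
    | insert i u _ ih =>
      intro H hm hH A
      have e2 : H = Function.update H i (H i) := by simp
      rw [e2, ← one_comp, ← map_mv_mv, hQY i _ (hm i)]
      refine ih _ (fun j => ?_) (fun j hj => ?_) A
      · by_cases hj : j = i
        · subst hj; simpa using strictMono_id
        · simpa [hj] using hm j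
      · by_cases hji : j = i
        · subst hji; simp
        · simpa [hji] using hH j (by simp [hji, hj])
  intro H hH
  exact main hH.2.toFinset H hH.1 fun i hi => by simpa using hi

end Pool.Agent.Lib.MP_5d68ca_lc
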