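import Mathlib

open FirstOrder FirstOrder.Language Cardinal

namespace Pool.Agent.Lib.MP_5d68ca_lc

/-- Interpretation data: one formula of `Ls` for equality and for each symbol of `L`.
For a function symbol the variable `none` is the value. -/
structure Interp (L Ls : FirstOrder.Language.{0, 0}) where
  eqF : Ls.Formula (Fin 2)
  relF : ∀ n : ℕ, L.Relations n → Ls.Formula (Fin n)
  funF : ∀ n : ℕ, L.Functions n → Ls.Formula (Option (Fin n))

/-- The domain of the interpreted structure. -/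
def Interp.Dom {L Ls : FirstOrder.Language.{0, 0}} (I : Interp L Ls) (M : Type) [Ls.Structure M] : Type :=
  {a : M // I.eqF.Realize fun _ => a}

/-- `S` is the interpreted structure on the domain. -/
def Interp.Induces {L Ls : FirstOrder.Language.{0, 0}} (I : Interp L Ls) (M : Type) [Ls.Structure M]
    (S : L.Structure (I.Dom M)) : Prop :=
  (∀ (n : ℕ) (R : L.Relations n) (x : Fin n → I.Dom M),
    S.RelMap R x ↔ (I.relF n R).Realize fun i => (x i).1) ∧
  ∀ (n : ℕ) (f : L.Functions n) (x : Fin n → I.Dom M) (y : I.Dom M),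
    S.funMap f x = y ↔ (I.funF n f).Realize fun o => o.elim y.1 fun i => (x i).1

/-- In every model of `Ts` the interpreted structure exists and is a model of `T`. -/
def Interp.Interprets {L Ls : FirstOrder.Language.{0, 0}} (I : Interp L Ls) (T : L.Theory)
    (Ts : Ls.Theory) : Prop :=
  ∀ (M : Type) [Ls.Structure M] [Nonempty M], M ⊨ Ts →
    Nonempty (I.Dom M) ∧ ∃ S : L.Structure (I.Dom M), I.Induces M S ∧ @Theory.Model L _ S T

/-- Every finitely satisfiable set of formulas in one variable with parameters from a set of size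
less than `lam` is realized. -/
def Saturated (L : FirstOrder.Language.{0, 0}) (M : Type) [L.Structure M] (lam : Cardinal.{0}) : Prop :=
  ∀ A : Set M, #A < lam → ∀ p : Set (L.Formula (Option A)),
    (∀ s : Finset (L.Formula (Option A)), ↑s ⊆ p →
      ∃ a : M, ∀ φ ∈ s, φ.Realize fun o => o.elim a Subtype.val) →
    ∃ a : M, ∀ φ ∈ p, φ.Realize fun o => o.elim a Subtype.val

/-- The interpretability order with index `κ`, on countable theories. -/
def InterpLe (κ : Cardinal.{0}) {L₀ L₁ : FirstOrder.Language.{0, 0}} (T₀ : L₀.Theory)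
    (T₁ : L₁.Theory) : Prop :=
  ∃ μ : Cardinal.{0}, ∀ lam : Cardinal.{0}, lam.IsRegular → μ ≤ lam →
    ∃ (Ls : FirstOrder.Language.{0, 0}) (Ts : Ls.Theory) (I₀ : Interp L₀ Ls) (I₁ : Interp L₁ Ls),
      Countable Ls.Symbols ∧ Ts.IsComplete ∧ I₀.Interprets T₀ Ts ∧ I₁.Interprets T₁ Ts ∧
      ∀ (M : Type) [Ls.Structure M] [Nonempty M], M ⊨ Ts → Saturated Ls M κ →
        ∀ (S₀ : L₀.Structure (I₀.Dom M)) (S₁ : L₁.Structure (I₁.Dom M)),
          I₀.Induces M S₀ → I₁.Induces M S₁ →
          @Saturated L₁ _ S₁ lam → @Saturated L₀ _ S₀ lam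

/-- The tree property; a theory is simple when it fails. -/
def HasTP {L : FirstOrder.Language.{0, 0}} (T : L.Theory) : Prop :=
  ∃ (a n k : ℕ) (φ : L.Formula (Fin a ⊕ Fin n)) (M : Type) (_ : L.Structure M) (_ : Nonempty M),
    M ⊨ T ∧ ∃ b : List ℕ → Fin n → M,
      (∀ (η : List ℕ) (s : Finset ℕ), s.card = k →
        ¬∃ x : Fin a → M, ∀ l ∈ s, φ.Realize (Sum.elim x (b (η ++ [l])))) ∧
      ∀ (ρ : ℕ → ℕ) (m : ℕ),
        ∃ x : Fin a → M, ∀ j ≤ m, φ.Realize (Sum.elim x (b ((List.range j).map ρ)))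

end Pool.Agent.Lib.MP_5d68ca_lc
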