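import Pool.Agent.Lib.MP_5d68ca_lc.Main

open FirstOrder FirstOrder.Language

namespace Pool.Agent.Lib.MP_5d68ca_lc

/-- The tree of finite sequences with the initial segment relation. -/
@[reducible] def treeStr : Language.graph.Structure (List ℕ) where
  RelMap | .adj => fun x => x 1 <+: x 0

lemma graph_countable : Countable Language.graph.Symbols := by
  have : ∀ n, Countable (Language.graph.Functions n) := fun n => inferInstanceAs (Countable Empty)
  unfold Language.Symbols
  infer_instance

lemma tree_hasTP : HasTP (@completeTheory Language.graph (List ℕ) treeStr) := by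
  let _ := treeStr
  refine ⟨1, 1, 2, Relations.formula₂ adj (Term.var (.inl 0)) (Term.var (.inr 0)), List ℕ, treeStr,
    inferInstance, inferInstance, fun η _ => η, fun η s hs => ?_, fun ρ m => ?_⟩
  · rintro ⟨x, hx⟩
    obtain ⟨l, l', hne, rfl⟩ := Finset.card_eq_two.1 hs
    have h1 : η ++ [l] <+: x 0 := by
      simpa [Formula.realize_rel₂, Structure.RelMap] using hx l (by simp)
    have h2 : η ++ [l'] <+: x 0 := by
      simpa [Formula.realize_rel₂, Structure.RelMap] using hx l' (by simp)
    have := (List.prefix_of_prefix_length_le h1 h2 (by simp)).eq_of_length (by simp)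
    exact hne (by simpa using this)
  · refine ⟨fun _ => (List.range m).map ρ, fun j hj => ?_⟩
    have : (List.range j).map ρ <+: (List.range m).map ρ :=
      List.IsPrefix.map ρ (by
        obtain ⟨d, rfl⟩ := Nat.exists_eq_add_of_le hj
        rw [List.range_add]
        exact ⟨_, rfl⟩)
    simpa [Formula.realize_rel₂, Structure.RelMap] using this

theorem hasTP_of_maximal (κ : Cardinal.{0}) {L : FirstOrder.Language.{0, 0}} [Countable L.Symbols]
    {T : L.Theory} (h : ∀ (L' : FirstOrder.Language.{0, 0}) (T' : L'.Theory),
      Countable L'.Symbols → T'.IsComplete → InterpLe κ T' T) : HasTP T := by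
  let _ := treeStr
  by_contra h1
  exact main κ (completeTheory.isComplete Language.graph (List ℕ)) tree_hasTP h1
    (h _ _ graph_countable (completeTheory.isComplete Language.graph (List ℕ)))

end Pool.Agent.Lib.MP_5d68ca_lc
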