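import Pool.Agent.Lib.MP_5d68ca_lc.Core
import Pool.Agent.Lib.MP_5d68ca_lc.Defs

open FirstOrder FirstOrder.Language Filter Set Cardinal

namespace Pool.Agent.Lib.MP_5d68ca_lc

variable {L : FirstOrder.Language.{0, 0}} {T : L.Theory} {C : Type}

lemma exists_formula_ex {α ι γ : Type} [Finite α] [Finite ι] {β : ι → Type}
    (φ : ∀ i, L.Formula (α ⊕ β i)) (c : ∀ i, β i → γ) :
    ∃ θ : L.Formula γ, ∀ (M : Type) [L.Structure M] (v : γ → M),
      θ.Realize v ↔ ∃ x : α → M, ∀ i, (φ i).Realize (Sum.elim x (v ∘ c i)) := by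
  refine ⟨Formula.iExs α (Formula.iInf fun i =>
    (φ i).relabel (Sum.elim Sum.inr (Sum.inl ∘ c i))), fun M _ v => ?_⟩
  simp only [Formula.realize_iExs, Formula.realize_iInf, Formula.realize_relabel]
  refine exists_congr fun x => forall_congr' fun i => ?_
  rw [iff_iff_eq]
  congr 1
  funext s
  cases s <;> rfl

lemma exists_atom_ex {α ι : Type} [Finite α] [Finite ι] {β : ι → Type} [∀ i, Finite (β i)]
    (φ : ∀ i, L.Formula (α ⊕ β i)) (c : ∀ i, β i → C) :
    ∃ A : Atom L C, (∀ r, ∃ i s, A.2.2 r = c i s) ∧ ∀ (P : Pt T C) (g : C → C),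
      P.holds (A.map g) ↔ ∃ x : α → P.M, ∀ i, (φ i).Realize (Sum.elim x (P.v ∘ g ∘ c i)) := by
  obtain ⟨θ, hθ⟩ := exists_formula_ex (γ := Σ i, β i) φ fun i s => ⟨i, s⟩
  obtain ⟨A, hA, hA'⟩ := exists_atom (T := T) θ fun s => c s.1 s.2
  exact ⟨A, fun r => (hA r).elim fun a ha => ⟨a.1, a.2, ha⟩, fun P g => (hA' P g).trans (hθ _ _)⟩

lemma transfer (hT : T.IsComplete) (P : Pt T C) (M : Type) [L.Structure M] [Nonempty M]
    (hM : M ⊨ T) {ι : Type} [Finite ι] (A : ι → Atom L C) (hA : ∀ i, P.holds (A i)) :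
    ∃ w : C → M, ∀ i, (⟨M, hM, w⟩ : Pt T C).holds (A i) := by
  classical
  have hP := P.mod
  let s : Set C := ⋃ i, range (A i).2.2
  have : Finite s := (finite_iUnion fun i => finite_range _).to_subtype
  let c : ∀ i, Fin (A i).1 → s := fun i r => ⟨(A i).2.2 r, mem_iUnion.2 ⟨i, r, rfl⟩⟩
  obtain ⟨θ, hθ⟩ := exists_formula_ex (α := s) (γ := Empty) (β := fun _ => Empty)
    (fun i => (A i).2.1.relabel (Sum.inl ∘ c i)) fun _ => id
  have h1 : P.M ⊨ θ := (hθ _ _).2 ⟨fun a => P.v a, fun i => by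
    rw [Formula.realize_relabel]
    exact hA i⟩
  have h2 : M ⊨ θ := (hT.realize_sentence_iff θ M).2 ((hT.realize_sentence_iff θ P.M).1 h1)
  obtain ⟨x, hx⟩ := (hθ _ _).1 h2
  refine ⟨fun a => if h : a ∈ s then x ⟨a, h⟩ else Classical.arbitrary M, fun i => ?_⟩
  have := hx i
  rw [Formula.realize_relabel] at this
  unfold Pt.holds
  convert this using 1
  funext r
  exact dif_pos (c i r).2

/-- Formulas in one distinguished variable and finitely many parameters. -/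
def Shape (L : FirstOrder.Language.{0, 0}) : Type := Σ n : ℕ, L.Formula (Unit ⊕ Fin n)

/-- Truth of a shape. -/
def Rz {M : Type} [L.Structure M] (ψ : Shape L) (x : M) (w : ℕ → M) : Prop :=
  ψ.2.Realize (Sum.elim (fun _ => x) fun r => w r)

lemma exists_atom_rz (ψ : Shape L) (d : C) (c : ℕ → C) :
    ∃ A : Atom L C, (∀ r, A.2.2 r = d ∨ ∃ s, A.2.2 r = c s) ∧ ∀ (P : Pt T C) (g : C → C),
      P.holds (A.map g) ↔ Rz ψ (P.v (g d)) fun s => P.v (g (c s)) := by
  obtain ⟨A, hA, hA'⟩ := exists_atom (T := T) ψ.2 (Sum.elim (fun _ => d) fun r => c r)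
  refine ⟨A, fun r => ?_, fun P g => (hA' P g).trans ?_⟩
  · obtain ⟨a | a, ha⟩ := hA r
    · exact Or.inl ha
    · exact Or.inr ⟨_, ha⟩
  · unfold Rz
    rw [iff_iff_eq]
    congr 1
    funext s
    cases s <;> rfl

lemma exists_atom_exrz {ι : Type} (F : Finset ι) (ψ : ι → Shape L) (c : ι → ℕ → C) :
    ∃ A : Atom L C, (∀ r, ∃ i ∈ F, ∃ s, A.2.2 r = c i s) ∧ ∀ (P : Pt T C) (g : C → C),
      P.holds (A.map g) ↔ ∃ x : P.M, ∀ i ∈ F, Rz (ψ i) x fun s => P.v (g (c i s)) := by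
  obtain ⟨A, hA, hA'⟩ := exists_atom_ex (T := T) (ι := F) (fun i => (ψ i).2) fun i r => c i r
  refine ⟨A, fun r => ?_, fun P g => (hA' P g).trans ⟨?_, ?_⟩⟩
  · obtain ⟨i, s, h⟩ := hA r
    exact ⟨i, i.2, s, h⟩
  · rintro ⟨x, hx⟩
    exact ⟨x (), fun i hi => hx ⟨i, hi⟩⟩
  · rintro ⟨x, hx⟩
    exact ⟨fun _ => x, fun i => hx i i.2⟩

lemma finitize {β : Type} (φ : L.Formula (Option β)) :
    ∃ (ψ : Shape L) (c : Fin ψ.1 → β), ∀ (M : Type) [L.Structure M] (x : M) (v : β → M),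
      φ.Realize (fun o => o.elim x v) ↔ ψ.2.Realize (Sum.elim (fun _ => x) (v ∘ c)) := by
  classical
  let s : Set β := {b | some b ∈ φ.freeVarFinset}
  have : Finite s := ((φ.freeVarFinset.finite_toSet.preimage
    (Option.some_injective β).injOn)).to_subtype
  obtain ⟨n, ⟨e⟩⟩ := Finite.exists_equiv_fin s
  let f : φ.freeVarFinset → Unit ⊕ Fin n := fun a =>
    match a with
    | ⟨none, _⟩ => Sum.inl ()
    | ⟨some b, h⟩ => Sum.inr (e ⟨b, h⟩)
  refine ⟨⟨n, φ.restrictFreeVar f⟩, fun r => (e.symm r).1, fun M _ x v => ?_⟩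
  refine (BoundedFormula.realize_restrictFreeVar _ ?_).symm
  rintro ⟨_ | b, h⟩
  · rfl
  · simp [f]

lemma hasTP_of {β : Type} [Finite β] (φ : L.Formula (Unit ⊕ β)) (M : Type) [L.Structure M]
    [Nonempty M] (hM : M ⊨ T) (k : ℕ) (b : List ℕ → β → M)
    (h1 : ∀ (η : List ℕ) (s : Finset ℕ), s.card = k →
      ¬∃ x : M, ∀ l ∈ s, φ.Realize (Sum.elim (fun _ => x) (b (η ++ [l]))))
    (h2 : ∀ (ρ : ℕ → ℕ) (m : ℕ),
      ∃ x : M, ∀ j ≤ m, φ.Realize (Sum.elim (fun _ => x) (b ((List.range j).map ρ)))) :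
    HasTP T := by
  obtain ⟨n, ⟨e⟩⟩ := Finite.exists_equiv_fin β
  have key : ∀ (x : Fin 1 → M) (w : β → M),
      (φ.relabel (Sum.map (fun _ => (0 : Fin 1)) e)).Realize (Sum.elim x (w ∘ e.symm)) ↔
        φ.Realize (Sum.elim (fun _ => x 0) w) := by
    intro x w
    rw [Formula.realize_relabel, iff_iff_eq]
    congr 1
    funext s
    cases s <;> simp
  refine ⟨1, n, k, φ.relabel (Sum.map (fun _ => 0) e), M, inferInstance, inferInstance, hM,
    fun η => b η ∘ e.symm, fun η s hs => ?_, fun ρ m => ?_⟩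
  · rintro ⟨x, hx⟩
    exact h1 η s hs ⟨x 0, fun l hl => (key _ _).1 (hx l hl)⟩
  · obtain ⟨x, hx⟩ := h2 ρ m
    exact ⟨fun _ => x, fun j hj => (key _ _).2 (hx j hj)⟩

lemma sat_one {M : Type} [L.Structure M] {lam : Cardinal.{0}} (h : Saturated L M lam)
    {β ι : Type} (hβ : #β < lam) (v : β → M) (φ : ι → L.Formula (Option β))
    (hf : ∀ F : Finset ι, ∃ x : M, ∀ i ∈ F, (φ i).Realize fun o => o.elim x v) :
    ∃ x : M, ∀ i, (φ i).Realize fun o => o.elim x v := by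
  classical
  let φ' : ι → L.Formula (Option (range v)) := fun i =>
    (φ i).relabel (Option.map (rangeFactorization v))
  have key : ∀ i (x : M), (φ' i).Realize (fun o => o.elim x Subtype.val) ↔
      (φ i).Realize fun o => o.elim x v := by
    intro i x
    rw [Formula.realize_relabel, iff_iff_eq]
    congr 1
    funext s
    cases s <;> rfl
  obtain ⟨x, hx⟩ := h (range v) (mk_range_le.trans_lt hβ) (range φ') fun s hs => by
    choose g hg using fun a : s => hs a.2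
    obtain ⟨x, hx⟩ := hf (Finset.univ.image g)
    refine ⟨x, fun θ hθ => ?_⟩
    rw [← show φ' (g ⟨θ, hθ⟩) = θ from hg ⟨θ, hθ⟩, key]
    exact hx _ (Finset.mem_image_of_mem _ (Finset.mem_univ _))
  exact ⟨x, fun i => (key i x).1 (hx _ ⟨i, rfl⟩)⟩

lemma sat_tuple {M : Type} [L.Structure M] {lam : Cardinal.{0}} (h : Saturated L M lam)
    (hl : ℵ₀ ≤ lam) (a : ℕ) : ∀ {β ι : Type} (_ : #β < lam) (v : β → M)
      (φ : ι → L.Formula (Fin a ⊕ β)),
      (∀ F : Finset ι, ∃ x : Fin a → M, ∀ i ∈ F, (φ i).Realize (Sum.elim x v)) →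
      ∃ x : Fin a → M, ∀ i, (φ i).Realize (Sum.elim x v) := by
  classical
  induction a with
  | zero =>
    intro β ι _ v φ hf
    refine ⟨default, fun i => ?_⟩
    obtain ⟨x, hx⟩ := hf {i}
    rw [Subsingleton.elim default x]
    exact hx i (by simp)
  | succ a ih =>
    intro β ι hβ v φ hf
    let φ' : ι → L.Formula (Fin a ⊕ Option β) := fun i =>
      (φ i).relabel (Sum.elim (Fin.cons (Sum.inr none) Sum.inl) (Sum.inr ∘ some))
    have key : ∀ i (y : M) (x : Fin a → M),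
        (φ' i).Realize (Sum.elim x fun o => o.elim y v) ↔
          (φ i).Realize (Sum.elim (Fin.cons y x) v) := by
      intro i y x
      rw [Formula.realize_relabel, iff_iff_eq]
      congr 1
      funext s
      rcases s with s | s
      · cases s using Fin.cases <;> rfl
      · rfl
    choose θ hθ using fun F : Finset ι =>
      exists_formula_ex (ι := F) (γ := Option β) (fun i => φ' i) fun _ => id
    obtain ⟨y, hy⟩ := sat_one h hβ v θ fun G => by
      obtain ⟨x, hx⟩ := hf (G.biUnion id)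
      refine ⟨x 0, fun F hF => (hθ F M _).2 ⟨Fin.tail x, fun i => (key _ _ _).2 ?_⟩⟩
      rw [Fin.cons_self_tail]
      exact hx i (Finset.mem_biUnion.2 ⟨F, hF, i.2⟩)
    obtain ⟨x, hx⟩ := ih (β := Option β) (by
        rw [mk_option]
        exact add_lt_of_lt hl hβ (one_lt_aleph0.trans_le hl)) (fun o => o.elim y v) φ' fun F => by
      obtain ⟨x, hx⟩ := (hθ F M _).1 (hy F)
      exact ⟨x, fun i hi => hx ⟨i, hi⟩⟩
    exact ⟨Fin.cons y x, fun i => (key _ _ _).1 (hx i)⟩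

end Pool.Agent.Lib.MP_5d68ca_lc
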