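import Pool.Agent.Lib.MP_5d68ca_lc.Defs

open FirstOrder FirstOrder.Language

namespace Pool.Agent.Lib.MP_5d68ca_lc

variable {L Ls : FirstOrder.Language.{0, 0}} (I : Interp L Ls)

lemma exists_dom {γ β : Type} [Finite β] (c : β → γ) :
    ∃ θ : Ls.Formula γ, ∀ (M : Type) [Ls.Structure M] (v : γ → M),
      θ.Realize v ↔ ∃ w : β → I.Dom M, ∀ s, (w s).1 = v (c s) := by
  refine ⟨Formula.iInf fun s => I.eqF.relabel fun _ => c s, fun M _ v => ?_⟩
  simp only [Formula.realize_iInf, Formula.realize_relabel]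
  constructor
  · intro h
    exact ⟨fun s => ⟨v (c s), h s⟩, fun s => rfl⟩
  · rintro ⟨w, hw⟩ s
    have := (w s).2
    rw [hw s] at this
    exact this

/-- Bounded existential quantification over the domain. -/
lemma exists_bex {γ β : Type} [Finite β] (φ : Ls.Formula (γ ⊕ β)) :
    ∃ θ : Ls.Formula γ, ∀ (M : Type) [Ls.Structure M] (v : γ → M),
      θ.Realize v ↔ ∃ w : β → I.Dom M, φ.Realize (Sum.elim v fun s => (w s).1) := by
  obtain ⟨δ, hδ⟩ := exists_dom I (γ := γ ⊕ β) Sum.inr
  refine ⟨Formula.iExs β (δ ⊓ φ), fun M _ v => ?_⟩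
  simp only [Formula.realize_iExs, Formula.realize_inf, hδ]
  constructor
  · rintro ⟨x, ⟨w, hw⟩, hx⟩
    obtain rfl : (fun s => (w s).1) = x := funext hw
    exact ⟨w, hx⟩
  · rintro ⟨w, hw⟩
    exact ⟨_, ⟨w, fun s => rfl⟩, hw⟩

lemma exists_terms {γ β : Type} [Finite β] (θ : β → Ls.Formula (Option γ))
    (χ : Ls.Formula (γ ⊕ β)) :
    ∃ θ' : Ls.Formula γ, ∀ (M : Type) [Ls.Structure M] (v : γ → M),
      θ'.Realize v ↔ ∃ w : β → I.Dom M, (∀ s, (θ s).Realize fun o => o.elim (w s).1 v) ∧
        χ.Realize (Sum.elim v fun s => (w s).1) := by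
  obtain ⟨θ', h⟩ := exists_bex I ((Formula.iInf fun s =>
    (θ s).relabel fun o => o.elim (Sum.inr s) Sum.inl) ⊓ χ)
  refine ⟨θ', fun M _ v => (h M v).trans (exists_congr fun w => ?_)⟩
  simp only [Formula.realize_inf, Formula.realize_iInf, Formula.realize_relabel]
  refine and_congr_left' (forall_congr' fun s => ?_)
  rw [iff_iff_eq]
  congr 1
  funext o
  cases o <;> rfl

lemma tr_term {γ : Type} (t : L.Term γ) :
    ∃ θ : Ls.Formula (Option γ), ∀ (M : Type) [Ls.Structure M] (S : L.Structure (I.Dom M)),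
      I.Induces M S → ∀ (w : γ → I.Dom M) (y : I.Dom M),
        θ.Realize (fun o => o.elim y.1 fun g => (w g).1) ↔ t.realize w = y := by
  induction t with
  | var g =>
    refine ⟨Term.equal (Term.var (some g)) (Term.var none), fun M _ S _ w y => ?_⟩
    simp only [Formula.realize_equal, Term.realize_var]
    exact Subtype.ext_iff.symm
  | @func n f ts ih =>
    choose θ hθ using ih
    obtain ⟨θ', h⟩ := exists_terms I (γ := Option γ)
      (fun s => (θ s).relabel (Option.map some))
      ((I.funF n f).relabel fun o => o.elim (Sum.inl none) Sum.inr)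
    refine ⟨θ', fun M _ S hS w y => (h M _).trans ?_⟩
    have e1 : ∀ (z : I.Dom M) s, ((θ s).relabel (Option.map some)).Realize
        (fun o => o.elim z.1 fun o => o.elim y.1 fun g => (w g).1) ↔ (ts s).realize w = z := by
      intro z s
      rw [Formula.realize_relabel, ← hθ s M S hS w z, iff_iff_eq]
      congr 1
      funext o
      cases o <;> rfl
    have e2 : ∀ z : Fin n → I.Dom M, ((I.funF n f).relabel fun o =>
        o.elim (Sum.inl none) Sum.inr).Realize (Sum.elim
          (fun o : Option γ => o.elim y.1 fun g => (w g).1) fun s => (z s).1) ↔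
        S.funMap f z = y := by
      intro z
      rw [Formula.realize_relabel, hS.2, iff_iff_eq]
      congr 1
      funext o
      cases o <;> rfl
    simp only [e1, e2, Term.realize_func]
    constructor
    · rintro ⟨z, h1, h2⟩
      rw [funext h1]
      exact h2
    · intro h1
      exact ⟨_, fun s => rfl, h1⟩

lemma tr_bounded {α : Type} {n : ℕ} (φ : L.BoundedFormula α n) :
    ∃ θ : Ls.Formula (α ⊕ Fin n), ∀ (M : Type) [Ls.Structure M] (S : L.Structure (I.Dom M)),
      I.Induces M S → ∀ w : α ⊕ Fin n → I.Dom M,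
        θ.Realize (fun g => (w g).1) ↔ φ.Realize (w ∘ Sum.inl) (w ∘ Sum.inr) := by
  induction φ with
  | falsum => exact ⟨⊥, fun M _ S _ w => Iff.rfl⟩
  | @equal n t1 t2 =>
    choose θ hθ using fun s : Bool => tr_term I (cond s t1 t2)
    obtain ⟨θ', h⟩ := exists_terms I θ
      (Term.equal (Term.var (Sum.inr true)) (Term.var (Sum.inr false)))
    refine ⟨θ', fun M _ S hS w => (h M _).trans ?_⟩
    simp only [hθ _ M S hS, Formula.realize_equal, Term.realize_var, Sum.elim_inr,
      BoundedFormula.Realize, Sum.elim_comp_inl_inr]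
    constructor
    · rintro ⟨z, h1, h2⟩
      exact (h1 true).trans ((Subtype.ext h2).trans (h1 false).symm)
    · intro h1
      exact ⟨_, fun s => rfl, congrArg Subtype.val h1⟩
  | @rel n l R ts =>
    choose θ hθ using fun s => tr_term I (ts s)
    obtain ⟨θ', h⟩ := exists_terms I θ ((I.relF l R).relabel Sum.inr)
    refine ⟨θ', fun M _ S hS w => (h M _).trans ?_⟩
    simp only [hθ _ M S hS, Formula.realize_relabel, BoundedFormula.Realize,
      Sum.elim_comp_inl_inr, Sum.elim_comp_inr, hS.1]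
    constructor
    · rintro ⟨z, h1, h2⟩
      simp only [h1]
      exact h2
    · intro h1
      exact ⟨_, fun s => rfl, h1⟩
  | imp f1 f2 ih1 ih2 =>
    obtain ⟨θ1, h1⟩ := ih1
    obtain ⟨θ2, h2⟩ := ih2
    refine ⟨θ1.imp θ2, fun M _ S hS w => ?_⟩
    rw [Formula.realize_imp, h1 M S hS, h2 M S hS, BoundedFormula.realize_imp]
  | @all n f ih =>
    obtain ⟨θ, h⟩ := ih
    obtain ⟨θ', h'⟩ := exists_bex I (β := Unit) (γ := α ⊕ Fin n) (θ.relabel
      (Sum.elim (Sum.inl ∘ Sum.inl) (Fin.snoc (Sum.inl ∘ Sum.inr) (Sum.inr ())))).not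
    refine ⟨θ'.not, fun M _ S hS w => ?_⟩
    rw [Formula.realize_not, h', BoundedFormula.realize_all, not_exists]
    have key : ∀ y : I.Dom M, (θ.relabel (Sum.elim (Sum.inl ∘ Sum.inl)
        (Fin.snoc (Sum.inl ∘ Sum.inr) (Sum.inr ())))).Realize
          (Sum.elim (fun g => (w g).1) fun _ : Unit => y.1) ↔
        f.Realize (w ∘ Sum.inl) (Fin.snoc (w ∘ Sum.inr) y) := by
      intro y
      rw [Formula.realize_relabel]
      refine Iff.trans ?_ (h M S hS (Sum.elim (w ∘ Sum.inl) (Fin.snoc (w ∘ Sum.inr) y)))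
      rw [iff_iff_eq]
      congr 1
      funext s
      rcases s with s | s
      · rfl
      · cases s using Fin.lastCases <;> simp
    simp only [Formula.realize_not, not_not]
    exact ⟨fun h1 y => (key y).1 (h1 fun _ => y), fun h1 y => (key (y ())).2 (h1 _)⟩

theorem translate {α : Type} [Finite α] (φ : L.Formula α) :
    ∃ θ : Ls.Formula α, ∀ (M : Type) [Ls.Structure M] (S : L.Structure (I.Dom M)),
      I.Induces M S → ∀ v : α → M,
        θ.Realize v ↔ ∃ w : α → I.Dom M, (∀ a, (w a).1 = v a) ∧ φ.Realize w := by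
  obtain ⟨θ, h⟩ := tr_bounded I φ
  obtain ⟨δ, hδ⟩ := exists_dom I (id : α → α)
  refine ⟨δ ⊓ θ.relabel (Sum.elim id Fin.elim0), fun M _ S hS v => ?_⟩
  have key : ∀ w : α → I.Dom M, (θ.relabel (Sum.elim id Fin.elim0)).Realize (fun a => (w a).1) ↔
      φ.Realize w := by
    intro w
    rw [Formula.realize_relabel]
    refine Iff.trans ?_ ((h M S hS (Sum.elim w Fin.elim0)).trans ?_)
    · rw [iff_iff_eq]
      congr 1
      funext s
      rcases s with s | s
      · rfl
      · exact s.elim0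
    · rw [Formula.Realize, iff_iff_eq]
      congr 1
  rw [Formula.realize_inf, hδ]
  constructor
  · rintro ⟨⟨w, hw⟩, h1⟩
    obtain rfl : (fun a => (w a).1) = v := funext hw
    exact ⟨w, hw, (key w).1 h1⟩
  · rintro ⟨w, hw, h1⟩
    obtain rfl : (fun a => (w a).1) = v := funext hw
    exact ⟨⟨w, hw⟩, (key w).2 h1⟩

end Pool.Agent.Lib.MP_5d68ca_lc
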