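import Pool.Agent.Lib.MP_5d68ca_lc.Model
import Pool.Agent.Lib.MP_5d68ca_lc.Translate

open FirstOrder FirstOrder.Language Filter Set Cardinal

namespace Pool.Agent.Lib.MP_5d68ca_lc

variable {L Ls : FirstOrder.Language.{0, 0}}

lemma tr_ex {I : Interp L Ls} {M : Type} [Ls.Structure M] [L.Structure (I.Dom M)]
    [Nonempty (I.Dom M)] {α ι : Type} {β : ι → Type} {φ : ∀ l, L.Formula (α ⊕ β l)}
    {χ : ∀ l, Ls.Formula (α ⊕ β l)}
    (h : ∀ l (v : α ⊕ β l → M), (χ l).Realize v ↔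
      ∃ w : α ⊕ β l → I.Dom M, (∀ s, (w s).1 = v s) ∧ (φ l).Realize w)
    (y : ∀ l, β l → I.Dom M) :
    (∃ x : α → M, ∀ l, (χ l).Realize (Sum.elim x fun r => (y l r).1)) ↔
      ∃ x : α → I.Dom M, ∀ l, (φ l).Realize (Sum.elim x (y l)) := by
  constructor
  · rintro ⟨x, hx⟩
    rcases isEmpty_or_nonempty ι with h0 | ⟨⟨l₀⟩⟩
    · exact ⟨fun _ => Classical.arbitrary _, fun l => isEmptyElim l⟩
    choose w hw hw' using fun l => (h l _).1 (hx l)
    refine ⟨fun s => w l₀ (.inl s), fun l => ?_⟩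
    convert hw' l using 1
    funext s
    cases s with
    | inl s => exact Subtype.ext ((hw l₀ _).trans (hw l (.inl s)).symm)
    | inr r => exact Subtype.ext (hw l (.inr r)).symm
  · rintro ⟨x, hx⟩
    exact ⟨fun s => (x s).1, fun l => (h l _).2 ⟨_, fun s => by cases s <;> rfl, hx l⟩⟩

lemma saturated_of [Countable L.Symbols] {M : Type} [L.Structure M] [Nonempty M]
    {lam : Cardinal.{0}} {K : Type} (h0 : ℵ₀ ≤ #K) (hK : lam ≤ #K)
    (h : ∀ A : Set M, #A < lam → ∀ (ψ : K → Shape L) (c : ∀ κ, Fin (ψ κ).1 → A),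
      (∀ F : Finset K, ∃ x : Unit → M, ∀ κ : F, (ψ κ).2.Realize (Sum.elim x fun r => c κ r)) →
      ∃ x : Unit → M, ∀ κ, (ψ κ).2.Realize (Sum.elim x fun r => c κ r)) :
    Saturated L M lam := by
  classical
  intro A hA p hp
  rcases p.eq_empty_or_nonempty with rfl | hne
  · simp
  have hc : #p ≤ #K := by
    refine (mk_subtype_le _).trans ((mk_le_of_injective
      (sigma_mk_injective (β := fun n => L.BoundedFormula (Option A) n) (i := 0))).trans
        (BoundedFormula.card_le.trans (max_le h0 ?_)))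
    simp only [lift_id, mk_option]
    exact add_le_of_le h0 (add_le_of_le h0 (hA.le.trans hK) (one_le_aleph0.trans h0))
      ((mk_le_aleph0_iff.2 ‹_›).trans h0)
  obtain ⟨e⟩ := (le_def _ _).1 hc
  have := hne.to_subtype
  let g : K → p := Function.invFun e
  have hg : Function.Surjective g := Function.invFun_surjective e.injective
  choose ψ c hψ using fun κ => finitize (g κ).1
  obtain ⟨x, hx⟩ := h A hA ψ c fun F => by
    obtain ⟨x, hx⟩ := hp (F.image fun κ => (g κ).1) fun φ hφ => by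
      obtain ⟨κ, -, rfl⟩ := Finset.mem_image.1 hφ
      exact (g κ).2
    exact ⟨fun _ => x, fun κ => (hψ κ M x _).1 (hx _ (Finset.mem_image_of_mem _ κ.2))⟩
  refine ⟨x (), fun φ hφ => ?_⟩
  obtain ⟨κ, hκ⟩ := hg ⟨φ, hφ⟩
  rw [show φ = (g κ).1 from congrArg Subtype.val hκ.symm]
  exact (hψ κ M _ _).2 (hx κ)

/-- Padding of a finite tuple. -/
noncomputable def pad {M : Type} [Nonempty M] {n : ℕ} (c : Fin n → M) (r : ℕ) : M :=
  if h : r < n then c ⟨r, h⟩ else Classical.arbitrary M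

lemma rz_pad {M : Type} [L.Structure M] [Nonempty M] (ψ : Shape L) (x : M) (c : Fin ψ.1 → M) :
    Rz ψ x (pad c) ↔ ψ.2.Realize (Sum.elim (fun _ => x) c) := by
  simp [Rz, pad]

theorem main (κ₀ : Cardinal.{0}) {L₀ L₁ : FirstOrder.Language.{0, 0}} [Countable L₁.Symbols]
    {T₀ : L₀.Theory} {T₁ : L₁.Theory} (hT₀ : T₀.IsComplete) (h₀ : HasTP T₀) (h₁ : ¬HasTP T₁) :
    ¬InterpLe κ₀ T₀ T₁ := by
  classical
  rintro ⟨μ, hμ⟩
  obtain ⟨ν, hν0, hν1⟩ : ∃ ν, ℵ₀ ≤ ν ∧ κ₀ ≤ ν := ⟨_, le_max_left _ _, le_max_right _ _⟩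
  have hν2 : ℵ₀ ≤ Order.succ ν := hν0.trans (Order.le_succ ν)
  have hl1 : Order.succ ν < Order.succ (max μ (Order.succ ν)) :=
    (le_max_right _ _).trans_lt (Order.lt_succ _)
  have hl0 : ℵ₀ ≤ Order.succ (max μ (Order.succ ν)) := hν2.trans hl1.le
  obtain ⟨Ls, Ts, I₀, I₁, hLs, hTs, hI₀, hI₁, hsat⟩ := hμ (Order.succ (max μ (Order.succ ν)))
    (isRegular_succ (hν2.trans (le_max_right _ _)))
    ((le_max_left _ _).trans (Order.le_succ _))
  set lam := Order.succ (max μ (Order.succ ν))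
  let W := (Order.succ ν).ord.ToType
  let K := lam.out
  have hK : #K = lam := mk_out lam
  have : Nonempty K := mk_ne_zero_iff.1 (by rw [hK]; exact (aleph0_pos.trans_le hl0).ne')
  have hW : ∀ s : Set W, #s ≤ ν → ∃ j, ∀ i ∈ s, i < j := by
    intro s hs
    by_contra hc
    push Not at hc
    have h1 : #(⋃ i : s, insert i.1 (Iio i.1)) ≤ ν :=
      (mk_iUnion_le_sum_mk.trans (sum_le_sum _ (fun _ => ν) fun i => mk_insert_le.trans
        (add_le_of_le hν0 (Order.lt_succ_iff.1 (by simpa [W] using mk_Iio_lt i.1))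
          (one_le_aleph0.trans hν0)))).trans (by
        rw [sum_const']
        exact mul_le_of_le hν0 hs le_rfl)
    have h2 : #(univ : Set W) ≤ ν := (mk_le_mk_of_subset fun j _ => by
      obtain ⟨i, hi, hj⟩ := hc j
      exact mem_iUnion.2 ⟨⟨i, hi⟩, hj.eq_or_lt⟩).trans h1
    simp [W] at h2
  obtain ⟨a, n, k, φ, M₀, _, _, hM₀, b, hb1, hb2⟩ := h₀
  obtain ⟨χ, hχ⟩ := translate I₀ φ
  obtain ⟨M⟩ := hTs.1
  obtain ⟨P₁, hP₁⟩ := compact_closed (T := Ts) (C := Nm Ls W K × (W → ℕ))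
    (ι := W × (W → ℕ) × (Fin k ↪ ℕ) ⊕ Finset W × (W → ℕ))
    (Sum.elim (fun t => {P | Sib χ P t.1 t.2.1 t.2.2}) fun t => {P | Path χ P t.1 t.2})
    (fun t => by
      cases t with
      | inl t => exact (atom_sib χ _ _ _).elim fun A hA => closed_of_atom A hA.2
      | inr t => exact (atom_path χ _ _).elim fun A hA => closed_of_atom A hA.2)
    (fun F => by
      obtain ⟨Q, hQ1, hQ2⟩ := finite_tree (L' := Ls) (K := K) φ M₀ hM₀ b hb1 hb2
        (F.toLeft.image Prod.fst ∪ F.toRight.biUnion Prod.fst)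
      obtain ⟨_, S, hS, hST⟩ := hI₀ M M.is_model
      choose A _ hA using fun t : W × (W → ℕ) × (Fin k ↪ ℕ) =>
        atom_sib (T := T₀) (L' := Ls) (K := K) φ t.1 t.2.1 t.2.2
      choose B _ hB using fun t : Finset W × (W → ℕ) =>
        atom_path (T := T₀) (L' := Ls) (K := K) φ t.1 t.2
      obtain ⟨w, hw⟩ := transfer hT₀ Q (I₀.Dom M) hST (fun t : F => Sum.elim A B t.1) (by
        rintro ⟨t | t, ht⟩
        · exact (hA t Q).2 (hQ1 _ (Finset.mem_union_left _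
            (Finset.mem_image_of_mem _ (Finset.mem_toLeft.2 ht))) _ _)
        · exact (hB t Q).2 (hQ2 _ ((Finset.subset_biUnion_of_mem Prod.fst
            (Finset.mem_toRight.2 ht)).trans Finset.subset_union_right) _))
      refine ⟨⟨M, M.is_model, fun c => (w c).1⟩, fun t ht => ?_⟩
      cases t with
      | inl t =>
        exact fun h => (hA t _).1 (hw ⟨_, ht⟩) ((tr_ex (fun _ => hχ M S hS) _).1 h)
      | inr t => exact (tr_ex (fun _ => hχ M S hS) _).2 ((hB t _).1 (hw ⟨_, ht⟩)))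
  obtain ⟨N, _, _, hN, ⟨y, hy1, hy2⟩, hc⟩ := core hν0 hW χ P₁ (fun i pt e => hP₁ (.inl (i, pt, e)))
    fun u pt => hP₁ (.inr (u, pt))
  obtain ⟨_, S₀, hS₀, -⟩ := hI₀ N hN
  obtain ⟨_, S₁, hS₁, -⟩ := hI₁ N hN
  have hs : Saturated L₀ (I₀.Dom N) lam := by
    refine hsat N hN (saturated_of (K := K) (hK ▸ hl0)
      (hK ▸ hν1.trans ((Order.le_succ ν).trans hl1.le)) fun A hA ψ c h => ?_)
      S₀ S₁ hS₀ hS₁ (saturated_of (K := K) (hK ▸ hl0) hK.ge fun A _ ψ c h => ?_)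
    · obtain ⟨x, hx⟩ := (hc ψ (fun κ => pad fun r => (c κ r).1) fun F => by
        obtain ⟨x, hx⟩ := h F
        exact ⟨x (), fun κ hκ => (rz_pad _ _ _).2 (hx ⟨κ, hκ⟩)⟩).1
        ((mk_le_mk_of_subset (t := insert (Classical.arbitrary N) A) (by
          rintro _ ⟨⟨κ, r⟩, rfl⟩
          simp only [Function.uncurry, pad]
          split_ifs
          · exact Or.inr (Subtype.prop _)
          · exact Or.inl rfl)).trans (mk_insert_le.trans
            (add_le_of_le hν0 (hA.le.trans hν1) (one_le_aleph0.trans hν0))))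
      exact ⟨fun _ => x, fun κ => (rz_pad _ _ _).1 (hx κ)⟩
    · choose θ hθ using fun κ => translate I₁ (ψ κ).2
      rcases (hc (fun κ => ⟨_, θ κ⟩) (fun κ => pad fun r => (c κ r).1.1) fun F => by
        obtain ⟨x, hx⟩ := (tr_ex (fun κ : F => hθ κ N S₁ hS₁) fun κ r => (c κ r).1).2 (h F)
        exact ⟨x (), fun κ hκ => (rz_pad ⟨_, θ κ⟩ _ _).2 (hx ⟨κ, hκ⟩)⟩).2 with
        ⟨x, hx⟩ | ⟨P, m, k, κ, b, hb1, hb2⟩
      · exact (tr_ex (fun κ => hθ κ N S₁ hS₁) fun κ r => (c κ r).1).1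
          ⟨fun _ => x, fun κ => (rz_pad ⟨_, θ κ⟩ _ _).1 (hx κ)⟩
      · refine absurd ?_ h₁
        obtain ⟨_, S, hS, hST⟩ := hI₁ P.M P.mod
        have hd : ∀ η t (r : Fin (ψ (κ t)).1), I₁.eqF.Realize fun _ => b η t r := by
          intro η t r
          obtain ⟨x, hx⟩ := hb2 (fun j => η.getD j 0) η.length
          have h1 := hx η.length le_rfl t
          rw [show (List.range η.length).map (fun j => η.getD j 0) = η from
            List.ext_getElem (by simp) fun j h1 h2 => by simp [h2] ] at h1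
          obtain ⟨w, hw, -⟩ := (hθ (κ t) P.M S hS _).1 h1
          have := (w (.inr r)).2
          rwa [hw] at this
        have key : ∀ (x : I₁.Dom P.M) (v : (Σ t, Fin (ψ (κ t)).1) → I₁.Dom P.M),
            (Formula.iInf fun t => (ψ (κ t)).2.relabel
              (Sum.map id (Sigma.mk (β := fun t => Fin (ψ (κ t)).1) t))).Realize
                (Sum.elim (fun _ => x) v) ↔
            ∀ t, (ψ (κ t)).2.Realize (Sum.elim (fun _ => x) fun r => v ⟨t, r⟩) := by
          intro x v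
          simp only [Formula.realize_iInf, Formula.realize_relabel]
          refine forall_congr' fun t => ?_
          rw [iff_iff_eq]
          congr 1
          funext s
          cases s <;> rfl
        refine hasTP_of (β := Σ t, Fin (ψ (κ t)).1) (Formula.iInf fun t => (ψ (κ t)).2.relabel
          (Sum.map id (Sigma.mk (β := fun t => Fin (ψ (κ t)).1) t))) (I₁.Dom P.M) hST k
          (fun η s => ⟨b η s.1 s.2, hd η s.1 s.2⟩) (fun η s hs => ?_) fun ρ n => ?_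
        · rintro ⟨x, hx⟩
          obtain ⟨z, hz⟩ := (tr_ex (fun f : s × Fin m => hθ (κ f.2) P.M S hS)
            fun f r => ⟨b (η ++ [f.1.1]) f.2 r, hd _ _ r⟩).2
            ⟨fun _ => x, fun f => (key _ _).1 (hx f.1 f.1.2) f.2⟩
          exact hb1 η s hs ⟨z (), fun l hl t => hz (⟨l, hl⟩, t)⟩
        · obtain ⟨x, hx⟩ := hb2 ρ n
          obtain ⟨z, hz⟩ := (tr_ex (fun f : Iic n × Fin m => hθ (κ f.2) P.M S hS)
            fun f r => ⟨b ((List.range f.1.1).map ρ) f.2 r, hd _ _ r⟩).1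
            ⟨fun _ => x, fun f => hx f.1 f.1.2 f.2⟩
          exact ⟨z (), fun j hj => (key _ _).2 fun t => hz (⟨j, hj⟩, t)⟩
  have hd : ∀ i r, I₀.eqF.Realize fun _ => y i r := by
    intro i r
    obtain ⟨x, hx⟩ := hy1 {i}
    obtain ⟨w, hw, -⟩ := (hχ N S₀ hS₀ _).1 (hx ⟨i, by simp⟩)
    have := (w (.inr r)).2
    rwa [hw] at this
  have key : ∀ (i : W) (x : Fin a → I₀.Dom N), (φ.relabel (Sum.map id (Prod.mk i))).Realize
      (Sum.elim x fun s : W × Fin n => (⟨y s.1 s.2, hd _ _⟩ : I₀.Dom N)) ↔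
      φ.Realize (Sum.elim x fun r => (⟨y i r, hd _ _⟩ : I₀.Dom N)) := by
    intro i x
    rw [Formula.realize_relabel, iff_iff_eq]
    congr 1
    funext s
    cases s <;> rfl
  obtain ⟨x, hx⟩ := sat_tuple hs hl0 a (β := W × Fin n) (by
      refine lt_of_le_of_lt ?_ hl1
      simp only [mk_prod, lift_id, W, mk_ord_toType, mk_fin]
      exact mul_le_of_le hν2 le_rfl (natCast_lt_aleph0.le.trans hν2))
    (fun s => ⟨y s.1 s.2, hd _ _⟩) (fun i => φ.relabel (Sum.map id (Prod.mk i))) fun u => by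
      obtain ⟨x, hx⟩ := (tr_ex (fun _ : u => hχ N S₀ hS₀) fun i r => ⟨y i r, hd _ _⟩).1 (hy1 u)
      exact ⟨x, fun i hi => (key i x).2 (hx ⟨i, hi⟩)⟩
  exact hy2 ((tr_ex (fun _ : W => hχ N S₀ hS₀) fun i r => ⟨y i r, hd _ _⟩).2
    ⟨x, fun i => (key i x).1 (hx i)⟩)

end Pool.Agent.Lib.MP_5d68ca_lc
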