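import Pool.Agent.Lib.MP_5d68ca_lc.Simple

open FirstOrder FirstOrder.Language Filter Set

namespace Pool.Agent.Lib.MP_5d68ca_lc

variable {L L' : FirstOrder.Language.{0, 0}} {T : L.Theory} {W K : Type} [LinearOrder W]
  {a n : ℕ}

/-- Copies of a base tuple along its own coordinate are inconsistent. -/
def Sib (χ : L.Formula (Fin a ⊕ Fin n)) {k : ℕ} (P : Pt T (Nm L' W K × (W → ℕ))) (i : W)
    (pt : W → ℕ) (e : Fin k ↪ ℕ) : Prop :=
  ¬∃ x : Fin a → P.M, ∀ l, χ.Realize (Sum.elim x fun r =>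
    P.v (nm Nm.lev (.base i r) (Function.update pt i (e l))))

/-- The base tuples at one point are consistent. -/
def Path (χ : L.Formula (Fin a ⊕ Fin n)) (P : Pt T (Nm L' W K × (W → ℕ))) (u : Finset W)
    (pt : W → ℕ) : Prop :=
  ∃ x : Fin a → P.M, ∀ i : u, χ.Realize (Sum.elim x fun r => P.v (nm Nm.lev (.base i r) pt))

lemma atom_sib (χ : L.Formula (Fin a ⊕ Fin n)) {k : ℕ} (i : W) (pt : W → ℕ) (e : Fin k ↪ ℕ) :
    ∃ A : Atom L (Nm L' W K × (W → ℕ)), (∀ s, ∃ i r, (A.2.2 s).1 = .base i r) ∧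
      ∀ P : Pt T (Nm L' W K × (W → ℕ)), P.holds A ↔ Sib χ P i pt e := by
  obtain ⟨A, h1, h2⟩ := exists_atom_ex (T := T) (β := fun _ : Fin k => Fin n) (fun _ => χ)
    fun l r => nm Nm.lev (Nm.base i r : Nm L' W K) (Function.update pt i (e l))
  refine ⟨A.neg, fun s => ?_, fun P => not_congr (h2 P id)⟩
  obtain ⟨l, r, h⟩ := h1 s
  exact ⟨i, r, congrArg Prod.fst h⟩

lemma atom_path (χ : L.Formula (Fin a ⊕ Fin n)) (u : Finset W) (pt : W → ℕ) :
    ∃ A : Atom L (Nm L' W K × (W → ℕ)), (∀ s, ∃ i r, (A.2.2 s).1 = .base i r) ∧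
      ∀ P : Pt T (Nm L' W K × (W → ℕ)), P.holds A ↔ Path χ P u pt := by
  obtain ⟨A, h1, h2⟩ := exists_atom_ex (T := T) (β := fun _ : u => Fin n) (fun _ => χ)
    fun i r => nm Nm.lev (Nm.base i r : Nm L' W K) pt
  refine ⟨A, fun s => ?_, fun P => h2 P id⟩
  obtain ⟨i, r, h⟩ := h1 s
  exact ⟨i, r, congrArg Prod.fst h⟩

lemma closed_of_atom {C : Type} {X : Pt T C → Prop} (A : Atom L C) (h : ∀ P, P.holds A ↔ X P) :
    Closed {P | X P} := by
  intro Q hQ
  obtain ⟨P, hP, hB⟩ := hQ {A}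
  exact (h Q).1 ((hB A (by simp)).1 ((h P).2 hP))

lemma finite_tree (φ : L.Formula (Fin a ⊕ Fin n)) {k : ℕ} (M : Type) [L.Structure M] [Nonempty M]
    (hM : M ⊨ T) (b : List ℕ → Fin n → M)
    (h1 : ∀ (η : List ℕ) (s : Finset ℕ), s.card = k →
      ¬∃ x : Fin a → M, ∀ l ∈ s, φ.Realize (Sum.elim x (b (η ++ [l]))))
    (h2 : ∀ (ρ : ℕ → ℕ) (m : ℕ),
      ∃ x : Fin a → M, ∀ j ≤ m, φ.Realize (Sum.elim x (b ((List.range j).map ρ))))
    (U : Finset W) : ∃ P : Pt T (Nm L' W K × (W → ℕ)),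
      (∀ i ∈ U, ∀ pt (e : Fin k ↪ ℕ), Sib φ P i pt e) ∧ ∀ u ⊆ U, ∀ pt, Path φ P u pt := by
  classical
  let g : W → ℕ := fun i => (U.filter (· < i)).card
  have hg : ∀ i ∈ U, ∀ j, i < j → g i < g j := fun i hi j hij =>
    Finset.card_lt_card ⟨fun w hw => by
      simp only [Finset.mem_filter] at hw ⊢
      exact ⟨hw.1, hw.2.trans hij⟩, fun h => by simpa using h (Finset.mem_filter.2 ⟨hi, hij⟩)⟩
  let ρ : (W → ℕ) → ℕ → ℕ := fun pt t => ∑ j ∈ U, if g j = t then pt j else 0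
  let v : Nm L' W K × (W → ℕ) → M := fun c =>
    match c.1 with
    | .base i r => if h : r < n then b ((List.range (g i + 1)).map (ρ c.2)) ⟨r, h⟩
        else Classical.arbitrary M
    | _ => Classical.arbitrary M
  have hv : ∀ i ∈ U, ∀ pt, (fun r : Fin n => v (nm Nm.lev (.base i r) pt)) =
      b ((List.range (g i + 1)).map (ρ pt)) := by
    intro i hi pt
    funext r
    simp only [v, nm, r.2, dif_pos, Nm.lev]
    congr 1
    refine List.map_congr_left fun t ht => Finset.sum_congr rfl fun j _ => ?_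
    by_cases hj : g j = t
    · have : j ≤ i := not_lt.1 fun h => by
        have := hg i hi j h
        rw [List.mem_range] at ht
        omega
      simp [this]
    · simp [hj]
  refine ⟨⟨M, hM, v⟩, fun i hi pt e => ?_, fun u hu pt => ?_⟩
  · rintro ⟨x, hx⟩
    refine h1 ((List.range (g i)).map (ρ pt)) (Finset.univ.map e) (by simp) ⟨x, fun l hl => ?_⟩
    obtain ⟨l, -, rfl⟩ := Finset.mem_map.1 hl
    have := hx l
    simp only [hv i hi, List.range_succ, List.map_append, List.map_singleton] at this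
    convert this using 4
    · refine List.map_congr_left fun t ht => Finset.sum_congr rfl fun j _ => ?_
      by_cases hj : j = i
      · subst hj
        rw [if_neg (List.mem_range.1 ht).ne', if_neg (List.mem_range.1 ht).ne']
      · rw [Function.update_of_ne hj]
    · simp only [ρ]
      rw [Finset.sum_eq_single i (fun j hj hji => if_neg fun h => ?_) fun h => absurd hi h]
      · simp
      · rcases lt_or_gt_of_ne hji with h' | h'
        · exact (hg j hj i h').ne h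
        · exact (hg i hi j h').ne' h
  · obtain ⟨x, hx⟩ := h2 (ρ pt) (U.card + 1)
    refine ⟨x, fun i => ?_⟩
    have := hx (g i + 1) (Nat.succ_le_succ (Finset.card_filter_le _ _))
    rw [← hv i (hu i.2)] at this
    exact this

open Cardinal in
theorem core [Countable L.Symbols] [Nonempty K] {θ : Cardinal.{0}} (hθ : ℵ₀ ≤ θ)
    (hW' : ∀ s : Set W, #s ≤ θ → ∃ j, ∀ i ∈ s, i < j) (χ : L.Formula (Fin a ⊕ Fin n)) {k : ℕ}
    (P₁ : Pt T (Nm L W K × (W → ℕ))) (hs : ∀ i pt (e : Fin k ↪ ℕ), Sib χ P₁ i pt e)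
    (hp : ∀ u pt, Path χ P₁ u pt) :
    ∃ (N : Type) (_ : L.Structure N) (_ : Nonempty N), N ⊨ T ∧
      (∃ y : W → Fin n → N,
        (∀ u : Finset W, ∃ x : Fin a → N, ∀ i : u, χ.Realize (Sum.elim x (y i))) ∧
        ¬∃ x : Fin a → N, ∀ i, χ.Realize (Sum.elim x (y i))) ∧
      ∀ (ψ : K → Shape L) (c : K → ℕ → N), (∀ F : Finset K, ∃ x, ∀ κ ∈ F, Rz (ψ κ) x (c κ)) →
        (#(range (Function.uncurry c)) ≤ θ → ∃ x, ∀ κ, Rz (ψ κ) x (c κ)) ∧
        ((∃ x, ∀ κ, Rz (ψ κ) x (c κ)) ∨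
          ∃ (P : Pt T (Nm L W K × (W → ℕ))) (m k : ℕ) (κ : Fin m → K)
            (b : List ℕ → Fin m → ℕ → P.M), (∀ (η : List ℕ) (s : Finset ℕ), s.card = k →
              ¬∃ x, ∀ l ∈ s, ∀ t, Rz (ψ (κ t)) x (b (η ++ [l]) t)) ∧
            ∀ (ρ : ℕ → ℕ) (n : ℕ),
              ∃ x, ∀ j ≤ n, ∀ t, Rz (ψ (κ t)) x (b ((List.range j).map ρ) t)) := by
  classical
  have hW : ∀ s : Set W, s.Countable → ∃ j, ∀ i ∈ s, i < j :=
    fun s hs => hW' s (hs.le_aleph0.trans hθ)
  obtain ⟨P₀, ⟨hs₀, hp₀⟩, h₀⟩ := exists_inv Nm.lev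
    (X := {P : Pt T (Nm L W K × (W → ℕ)) | ∀ i pt (e : Fin k ↪ ℕ), Sib χ P i pt e} ∩
      {P | ∀ u pt, Path χ P u pt})
    ((closed_forall fun i => closed_forall fun pt => closed_forall fun e =>
      (atom_sib χ i pt e).elim fun A hA => closed_of_atom A hA.2).inter
      (closed_forall fun u => closed_forall fun pt =>
        (atom_path χ u pt).elim fun A hA => closed_of_atom A hA.2))
    ⟨P₁, hs, hp⟩
    (fun P hP H hH => ⟨fun i pt e => by
        have := hP.1 i (fun j => H j (pt j)) (e.trans ⟨H i, (hH.1 i).injective⟩)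
        have e2 : ∀ l, Function.update (fun j => H j (pt j)) i
            ((e.trans ⟨H i, (hH.1 i).injective⟩) l) =
            fun j => H j (Function.update pt i (e l) j) := by
          intro l
          funext j
          by_cases hj : j = i
          · subst hj; simp
          · simp [hj]
        simp only [Sib, e2, ← mv_nm] at this
        exact this,
      fun u pt => by
        have := hP.2 u fun j => H j (pt j)
        simp only [Path, ← mv_nm] at this
        exact this⟩)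
  obtain ⟨P, hP, hag, hdone⟩ := exists_generic P₀ h₀
  have hsP : ∀ i pt (e : Fin k ↪ ℕ), Sib χ P i pt e := fun i pt e => by
    obtain ⟨A, h1, h2⟩ := atom_sib (T := T) (L' := L) (K := K) χ i pt e
    exact (h2 P).1 ((hag A h1).1 ((h2 P₀).2 (hs₀ i pt e)))
  have hpP : ∀ u pt, Path χ P u pt := fun u pt => by
    obtain ⟨A, h1, h2⟩ := atom_path (T := T) (L' := L) (K := K) χ u pt
    exact (h2 P).1 ((hag A h1).1 ((h2 P₀).2 (hp₀ u pt)))
  let z : Nm L W K → P.M := fun d => P.v (nm Nm.lev d 0)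
  have hreal : ∀ j ψ c, Good P j ψ c → ∃ x ∈ range z, ∀ κ, Rz (ψ κ) x fun r => z (c κ r) :=
    fun j ψ c h => ⟨_, ⟨.task j ψ c, rfl⟩, fun κ => hdone j ψ c h κ 0 (by simp [FS])⟩
  have hcnt : ∀ (ψ : K → Shape L) (c : K → ℕ → Nm L W K), #(range (Function.uncurry c)) ≤ θ →
      (∀ F : Finset K, ∃ x, ∀ κ ∈ F, Rz (ψ κ) x fun r => z (c κ r)) →
      ∃ x ∈ range z, ∀ κ, Rz (ψ κ) x fun r => z (c κ r) := fun ψ c hc h => by
    obtain ⟨j, hj⟩ := hW' (Nm.lev '' _) (mk_image_le.trans hc)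
    exact hreal j ψ c (good_of_cons hP (cons_of_bdd hP (fun κ r i hi hji => absurd
      ((hj _ ⟨_, ⟨(κ, r), rfl⟩, rfl⟩).trans (hji.trans_le hi)) (lt_irrefl _)) h))
  obtain ⟨j₀, -⟩ := hW ∅ countable_empty
  have hmeet : L.MeetsDefinable (range z) := by
    rintro D ⟨x, hx⟩ hD
    obtain ⟨φ, hφ⟩ := definable_iff_exists_formula_sum.1 hD
    obtain ⟨ψ, c, hc⟩ := finitize (φ.relabel (Sum.elim some fun _ => none))
    have key : ∀ y : P.M, y ∈ D ↔
        Rz ψ y fun r => z (if h : r < ψ.1 then (c ⟨r, h⟩).2.choose else .base j₀ 0) := by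
      intro y
      have h1 := Set.ext_iff.1 hφ fun _ => y
      have h2 := hc P.M y Subtype.val
      rw [Formula.realize_relabel] at h2
      refine h1.trans (Iff.trans ?_ (h2.trans ?_))
      · rw [mem_ofPred_eq, iff_iff_eq]
        congr 1
        funext s
        cases s <;> rfl
      · rw [Rz, iff_iff_eq]
        congr 2
        funext r
        simp only [r.2, dif_pos]
        exact (c r).2.choose_spec.symm
    obtain ⟨y, hy, hy'⟩ := hcnt (fun _ => ψ)
      (fun _ r => if h : r < ψ.1 then (c ⟨r, h⟩).2.choose else .base j₀ 0)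
      (((countable_range fun r : ℕ => if h : r < ψ.1 then (c ⟨r, h⟩).2.choose else .base j₀ 0).mono
        (by rintro _ ⟨⟨_, r⟩, rfl⟩; exact ⟨r, rfl⟩)).le_aleph0.trans hθ)
      fun F => ⟨x, fun _ _ => (key x).1 hx⟩
    exact ⟨y, (key y).2 (hy' (Classical.arbitrary K)), hy⟩
  let S := hmeet.toElementarySubstructure
  have hS : ∀ x, x ∈ S ↔ x ∈ range z := fun x => Set.ext_iff.1 hmeet.closure_eq_self x
  have hel : ∀ {α : Type} (φ : L.Formula α) (x : α → S),
      φ.Realize (fun s => (x s : P.M)) ↔ φ.Realize x := fun φ x => S.subtype.map_formula φ x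
  have hel2 : ∀ {α β : Type} (φ : L.Formula (α ⊕ β)) (x : α → S) (y : β → S),
      φ.Realize (Sum.elim (fun s => (x s : P.M)) fun s => (y s : P.M)) ↔
        φ.Realize (Sum.elim x y) := fun φ x y => by
    rw [← hel, iff_iff_eq]
    congr 1
    funext s
    cases s <;> rfl
  have hrz : ∀ (ψ : Shape L) (x : S) (w : ℕ → S), Rz ψ (x : P.M) (fun r => w r) ↔ Rz ψ x w :=
    fun ψ x w => hel2 ψ.2 (fun _ => x) fun r => w r
  choose nam hnam using fun x : S => (hS x).1 x.2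
  have hPm := P.mod
  refine ⟨S, inferInstance, inferInstance, inferInstance,
    ⟨fun i r => ⟨z (.base i r), (hS _).2 ⟨_, rfl⟩⟩, fun u => ?_, ?_⟩, fun ψ c h => ?_⟩
  · obtain ⟨θ, hθ⟩ := exists_formula_ex (γ := u × Fin n) (β := fun _ : u => Fin n) (fun _ => χ)
      fun i r => (i, r)
    exact (hθ S fun s => ⟨z (.base s.1 s.2), (hS _).2 ⟨_, rfl⟩⟩).1
      ((hel θ _).1 ((hθ P.M _).2 (hpP u 0)))
  · rintro ⟨x, hx⟩
    obtain ⟨i, hi⟩ := hW _ (countable_range fun s => (nam (x s)).lev)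
    refine hsP i 0 Fin.valEmbedding ⟨fun s => x s, fun l => ?_⟩
    obtain ⟨A, -, hA⟩ := exists_atom (T := T) χ
      (Sum.elim (fun s => nm Nm.lev (nam (x s)) 0) fun r => nm Nm.lev (.base i r) 0)
    have h1 : P.holds (A.map id) := (hA P id).2 (by
      convert (hel2 χ _ _).2 (hx i) using 1
      funext s
      cases s with
      | inl s => exact hnam (x s)
      | inr r => rfl)
    have hfs : FS (Function.update (0 : W → ℕ) i l) :=
      (finite_singleton i).subset fun w hw => by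
        by_contra h
        exact hw (Function.update_of_ne h _ _)
    convert (hA P _).1 ((hP _ (mv_add hfs) A).2 h1) using 1
    funext s
    cases s with
    | inl s =>
      simp only [Sum.elim_inl, Function.comp, mv_nm]
      rw [nm_congr (pt' := 0) _ fun w hw => by
        simp [Function.update_of_ne (hw.trans_lt (hi _ ⟨s, rfl⟩)).ne] ]
      exact (hnam (x s)).symm
    | inr r => simp [mv_nm]
  · have e : ∀ κ, (fun r => z (nam (c κ r))) = fun r => (c κ r : P.M) :=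
      fun κ => funext fun r => hnam _
    have h' : ∀ F : Finset K, ∃ x, ∀ κ ∈ F, Rz (ψ κ) x fun r => z (nam (c κ r)) := fun F => by
      obtain ⟨x, hx⟩ := h F
      exact ⟨x, fun κ hκ => e κ ▸ (hrz _ _ _).2 (hx κ hκ)⟩
    have fin : (∃ x ∈ range z, ∀ κ, Rz (ψ κ) x fun r => z (nam (c κ r))) →
        ∃ x, ∀ κ, Rz (ψ κ) x (c κ) := by
      rintro ⟨x, hx, hx'⟩
      exact ⟨⟨x, (hS x).2 hx⟩, fun κ => (hrz _ _ _).1 (e κ ▸ hx' κ)⟩
    refine ⟨fun hc => fin (hcnt ψ (fun κ r => nam (c κ r))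
      ((mk_le_mk_of_subset ?_).trans ((mk_image_le (f := nam)).trans hc)) h'), ?_⟩
    · rintro _ ⟨s, rfl⟩
      exact ⟨_, ⟨s, rfl⟩, rfl⟩
    · rcases good_or_tree (c := fun κ r => nam (c κ r)) hW hP h' with ⟨j, hj⟩ | ht
      · exact Or.inl (fin (hreal j ψ _ hj))
      · exact Or.inr ⟨P, ht⟩

end Pool.Agent.Lib.MP_5d68ca_lc
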