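import Pool.Agent.Lib.MP_5d68ca_lc.Forms

open FirstOrder FirstOrder.Language Filter Set

namespace Pool.Agent.Lib.MP_5d68ca_lc

/-- Names: the base names and one name for each realization task. -/
inductive Nm (L : FirstOrder.Language.{0, 0}) (W K : Type) : Type
  | base : W → ℕ → Nm L W K
  | task : W → (K → Shape L) → (K → ℕ → Nm L W K) → Nm L W K

variable {L : FirstOrder.Language.{0, 0}} {T : L.Theory} {W K : Type}

/-- The level of a name. -/
def Nm.lev : Nm L W K → W
  | .base i _ => i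
  | .task j _ _ => j

/-- Finite support. -/
def FS (pt : W → ℕ) : Prop := {i | pt i ≠ 0}.Finite

/-- All names of the atom come from `E`. -/
def On (E : Set (Nm L W K)) (A : Atom L (Nm L W K × (W → ℕ))) : Prop := ∀ r, (A.2.2 r).1 ∈ E

/-- Agreement on the names from `E`. -/
def Agree (E : Set (Nm L W K)) (P Q : Pt T (Nm L W K × (W → ℕ))) : Prop :=
  ∀ A, On E A → (P.holds A ↔ Q.holds A)

variable [LinearOrder W]

/-- Invariance on the names from `E`. -/
def InvOn (E : Set (Nm L W K)) (P : Pt T (Nm L W K × (W → ℕ))) : Prop :=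
  ∀ H, Mv H → ∀ A, On E A → (P.holds (A.map (mv Nm.lev H)) ↔ P.holds A)

/-- The orbit of the task above its level is consistent. -/
def Good (P : Pt T (Nm L W K × (W → ℕ))) (j : W) (ψ : K → Shape L) (c : K → ℕ → Nm L W K) : Prop :=
  ∀ F : Finset (K × (W → ℕ)), (∀ f ∈ F, FS f.2) → (∀ f ∈ F, ∀ g ∈ F, ∀ i ≤ j, f.2 i = g.2 i) →
    ∃ x : P.M, ∀ f ∈ F, Rz (ψ f.1) x fun r => P.v (nm Nm.lev (c f.1 r) f.2)

/-- The orbit of the task is realized by the copies of its name. -/
def Done (P : Pt T (Nm L W K × (W → ℕ))) (j : W) (ψ : K → Shape L) (c : K → ℕ → Nm L W K) : Prop :=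
  ∀ κ pt, FS pt → Rz (ψ κ) (P.v (nm Nm.lev (.task j ψ c) pt)) fun r => P.v (nm Nm.lev (c κ r) pt)

omit [LinearOrder W] in
lemma FS.mv {pt : W → ℕ} (h : FS pt) {H : W → ℕ → ℕ} (hH : Mv H) : FS fun i => H i (pt i) := by
  refine (Set.Finite.union h hH.2).subset fun i hi => ?_
  by_contra hc
  simp only [mem_union, mem_ofPred_eq, not_or, not_not] at hc
  exact hi (by simp [hc.1, hc.2])

variable {E : Set (Nm L W K)} {P Q : Pt T (Nm L W K × (W → ℕ))} {j : W} {ψ : K → Shape L}
  {c : K → ℕ → Nm L W K}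

lemma Good.agree (h : Good P j ψ c) (hc : ∀ κ r, c κ r ∈ E) (hA : Agree E P Q) : Good Q j ψ c := by
  intro F h1 h2
  obtain ⟨A, hA1, hA2⟩ := exists_atom_exrz (T := T) F (fun f => ψ f.1)
    fun f r => nm Nm.lev (c f.1 r) f.2
  refine (hA2 Q id).1 ((hA A fun r => ?_).1 ((hA2 P id).2 (h F h1 h2)))
  obtain ⟨f, -, s, hs⟩ := hA1 r
  rw [hs]
  exact hc _ _

lemma Done.agree (h : Done P j ψ c) (hd : Nm.task j ψ c ∈ E) (hc : ∀ κ r, c κ r ∈ E)
    (hA : Agree E P Q) : Done Q j ψ c := by
  intro κ pt h1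
  obtain ⟨A, hA1, hA2⟩ := exists_atom_rz (T := T) (ψ κ) (nm Nm.lev (.task j ψ c) pt)
    fun r => nm Nm.lev (c κ r) pt
  refine (hA2 Q id).1 ((hA A fun r => ?_).1 ((hA2 P id).2 (h κ pt h1)))
  obtain hs | ⟨s, hs⟩ := hA1 r <;> rw [hs]
  · exact hd
  · exact hc _ _

lemma closed_rz {C : Type} (ψ : Shape L) (d : C) (c : ℕ → C) :
    Closed {P : Pt T C | Rz ψ (P.v d) fun r => P.v (c r)} := by
  obtain ⟨A, -, hA⟩ := exists_atom_rz (T := T) ψ d c
  intro Q h
  obtain ⟨P, hP, hB⟩ := h {A}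
  exact (hA Q id).1 ((hB A (by simp)).1 ((hA P id).2 hP))

lemma step (hinv : InvOn E P) (hd : Nm.task j ψ c ∉ E) (hc : ∀ κ r, c κ r ∈ E) :
    ∃ Q, Agree E P Q ∧ Inv Nm.lev Q ∧ (Good P j ψ c → Done Q j ψ c) := by
  classical
  have c1 : ∀ A, Closed {Q : Pt T (Nm L W K × (W → ℕ)) | On E A → (P.holds A ↔ Q.holds A)} :=
    fun A => closed_forall fun _ => closed_holds_iff A _
  have c2 : ∀ (κ : K) (pt : W → ℕ), Closed {Q : Pt T (Nm L W K × (W → ℕ)) | FS pt →
      Rz (ψ κ) (Q.v (nm Nm.lev (.task j ψ c) pt)) fun r => Q.v (nm Nm.lev (c κ r) pt)} :=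
    fun κ pt => closed_forall fun _ => closed_rz _ _ _
  obtain ⟨Q, hQ, hi⟩ := exists_inv Nm.lev
    (X := {Q | Agree E P Q} ∩ {Q | Good P j ψ c → Done Q j ψ c})
    ((closed_forall c1).inter (closed_forall fun _ => closed_forall fun κ => closed_forall (c2 κ)))
    (by
      by_cases hg : Good P j ψ c
      swap
      · exact ⟨P, fun A _ => Iff.rfl, fun h => absurd h hg⟩
      obtain ⟨Q, hQ⟩ := compact_closed (ι := Atom L (Nm L W K × (W → ℕ)) ⊕ K × (W → ℕ))
        (Sum.elim (fun A => {Q : Pt T (Nm L W K × (W → ℕ)) | On E A → (P.holds A ↔ Q.holds A)})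
          fun f => {Q | FS f.2 → Rz (ψ f.1) (Q.v (nm Nm.lev (.task j ψ c) f.2))
            fun r => Q.v (nm Nm.lev (c f.1 r) f.2)})
        (fun t => by
          cases t with
          | inl A => exact c1 A
          | inr f => exact c2 f.1 f.2)
        (fun F => by
          choose x hx using fun e : Nm L W K × (W → ℕ) => hg
            (F.toRight.filter fun f => FS f.2 ∧ nm Nm.lev (.task j ψ c) f.2 = e)
            (fun f hf => (Finset.mem_filter.1 hf).2.1)
            (fun f hf g hg i hi => by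
              have := congrFun (congrArg Prod.snd
                ((Finset.mem_filter.1 hf).2.2.trans (Finset.mem_filter.1 hg).2.2.symm)) i
              simpa [nm, Nm.lev, hi] using this)
          have hv : ∀ e : Nm L W K × (W → ℕ), e.1 ∈ E →
              (if e.1 = .task j ψ c then x e else P.v e) = P.v e :=
            fun e he => if_neg fun h : e.1 = .task j ψ c => hd (h ▸ he)
          refine ⟨⟨P.M, P.mod, fun e => if e.1 = .task j ψ c then x e else P.v e⟩, fun t ht => ?_⟩
          cases t with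
          | inl A =>
            intro hA
            unfold Pt.holds
            rw [iff_iff_eq]
            congr 1
            funext r
            exact (hv _ (hA r)).symm
          | inr f =>
            intro hf
            have := hx _ f (Finset.mem_filter.2 ⟨Finset.mem_toRight.2 ht, hf, rfl⟩)
            convert this using 1
            · exact if_pos rfl
            · funext r
              exact hv _ (hc _ _))
      exact ⟨Q, fun A => hQ (.inl A), fun _ κ pt => hQ (.inr (κ, pt))⟩)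
    (fun Q hQ H hH => ⟨fun A hA => (hinv H hH A hA).symm.trans (hQ.1 (A.map (mv Nm.lev H)) hA),
      fun hg κ pt hpt => by
        have := hQ.2 hg κ _ (hpt.mv hH)
        simp only [← mv_nm] at this
        exact this⟩)
  exact ⟨Q, hQ.1, hi, hQ.2⟩

/-- A stage of the construction. -/
structure St (P₀ : Pt T (Nm L W K × (W → ℕ))) : Type 1 where
  E : Set (Nm L W K)
  P : Pt T (Nm L W K × (W → ℕ))
  base : ∀ i r, .base i r ∈ E
  down : ∀ j ψ c, .task j ψ c ∈ E → ∀ κ r, c κ r ∈ E
  inv : InvOn E P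
  agree : Agree {d | ∃ i r, d = .base i r} P₀ P
  done : ∀ j ψ c, .task j ψ c ∈ E → Good P j ψ c → Done P j ψ c

theorem exists_generic (P₀ : Pt T (Nm L W K × (W → ℕ))) (h₀ : Inv Nm.lev P₀) :
    ∃ P, Inv Nm.lev P ∧ Agree {d | ∃ i r, d = .base i r} P₀ P ∧
      ∀ j ψ c, Good P j ψ c → Done P j ψ c := by
  classical
  have : Nonempty (St P₀) := ⟨⟨{d | ∃ i r, d = .base i r}, P₀, fun i r => ⟨i, r, rfl⟩,
    fun j ψ c ⟨_, _, h⟩ => (by cases h), fun H hH A _ => h₀ H hH A, fun A _ => Iff.rfl,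
    fun j ψ c ⟨_, _, h⟩ => (by cases h)⟩⟩
  obtain ⟨s, hs⟩ := exists_maximal_of_nonempty_chains_bounded
    (r := fun s t : St P₀ => s.E ⊆ t.E ∧ Agree s.E s.P t.P)
    (fun ch hch hne => by
      have hne' : Nonempty ch := hne.to_subtype
      have hdir : Directed (fun s t : St P₀ => s.E ⊆ t.E ∧ Agree s.E s.P t.P)
          (Subtype.val : ch → St P₀) := by
        have : Std.Refl fun s t : St P₀ => s.E ⊆ t.E ∧ Agree s.E s.P t.P :=
          ⟨fun s => ⟨subset_rfl, fun A _ => Iff.rfl⟩⟩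
        exact hch.directedOn.directed_val
      have : IsTrans (St P₀) fun s t : St P₀ => s.E ⊆ t.E ∧ Agree s.E s.P t.P :=
        ⟨fun a b c h1 h2 => ⟨h1.1.trans h2.1,
          fun A hA => (h1.2 A hA).trans (h2.2 A fun r => h1.1 (hA r))⟩⟩
      have hfin : ∀ {ι : Type} (F : Finset ι) (g : ι → ch), ∃ t : ch, ∀ i ∈ F,
          (g i).1.E ⊆ t.1.E ∧ Agree (g i).1.E (g i).1.P t.1.P := fun F g => by
        obtain ⟨t, ht⟩ := hdir.finset_le (F.image g)
        exact ⟨t, fun i hi => ht _ (Finset.mem_image_of_mem g hi)⟩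
      obtain ⟨Q, hQ⟩ := compact (T := T)
        (ι := {A : Atom L (Nm L W K × (W → ℕ)) // ∃ s : ch, On s.1.E A ∧ s.1.P.holds A})
        Subtype.val fun F => by
          obtain ⟨t, ht⟩ := hfin F fun A => A.2.choose
          exact ⟨t.1.P, fun A hA => ((ht A hA).2 A A.2.choose_spec.1).1 A.2.choose_spec.2⟩
      have hag : ∀ s : ch, Agree s.1.E s.1.P Q := fun s A hA =>
        ⟨fun h => hQ ⟨A, s, hA, h⟩, fun h => by
          by_contra h'
          exact hQ ⟨A.neg, s, hA, h'⟩ h⟩
      obtain ⟨s₀⟩ := hne'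
      refine ⟨⟨⋃ s : ch, s.1.E, Q, fun i r => mem_iUnion.2 ⟨s₀, s₀.1.base i r⟩,
        fun j ψ c h κ r => ?_, fun H hH A hA => ?_, fun A hA => (s₀.1.agree A hA).trans
          (hag s₀ A fun r => ?_), fun j ψ c h hg => ?_⟩,
        fun s hs => ⟨subset_iUnion (fun s : ch => s.1.E) ⟨s, hs⟩, hag ⟨s, hs⟩⟩⟩
      · obtain ⟨s, hs⟩ := mem_iUnion.1 h
        exact mem_iUnion.2 ⟨s, s.1.down j ψ c hs κ r⟩
      · choose g hg using fun r => mem_iUnion.1 (hA r)
        obtain ⟨t, ht⟩ := hfin Finset.univ g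
        have h1 : On t.1.E A := fun r => (ht r (Finset.mem_univ r)).1 (hg r)
        exact (hag t (A.map (mv Nm.lev H)) h1).symm.trans ((t.1.inv H hH A h1).trans (hag t A h1))
      · obtain ⟨i, r', h⟩ := hA r
        rw [h]
        exact s₀.1.base i r'
      · obtain ⟨s, hs⟩ := mem_iUnion.1 h
        exact (s.1.done j ψ c hs (hg.agree (s.1.down j ψ c hs)
          fun A hA => (hag s A hA).symm)).agree hs (s.1.down j ψ c hs) (hag s))
    (fun h1 h2 => ⟨h1.1.trans h2.1,
      fun A hA => (h1.2 A hA).trans (h2.2 A fun r => h1.1 (hA r))⟩)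
  have hall : ∀ d, d ∈ s.E := by
    intro d
    induction d with
    | base i r => exact s.base i r
    | task j ψ c ih =>
      by_contra hd
      obtain ⟨Q, h1, h2, h3⟩ := step s.inv hd ih
      refine hd ((hs ⟨insert (.task j ψ c) s.E, Q, fun i r => Or.inr (s.base i r),
        fun j' ψ' c' h κ r => Or.inr ?_, fun H hH A _ => h2 H hH A,
        fun A hA => (s.agree A hA).trans (h1 A fun r => ?_), fun j' ψ' c' h hg => ?_⟩
        ⟨subset_insert _ _, h1⟩).1 (Or.inl rfl))
      · rcases h with h | h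
        · cases h
          exact ih κ r
        · exact s.down _ _ _ h κ r
      · obtain ⟨i, r', h⟩ := hA r
        rw [h]
        exact s.base i r'
      · rcases h with h | h
        · cases h
          exact h3 (hg.agree ih fun A hA => (h1 A hA).symm)
        · exact (s.done _ _ _ h (hg.agree (s.down _ _ _ h)
            fun A hA => (h1 A hA).symm)).agree h (s.down _ _ _ h) h1
  exact ⟨s.P, fun H hH A => s.inv H hH A fun r => hall _, s.agree,
    fun j ψ c => s.done j ψ c (hall _)⟩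

end Pool.Agent.Lib.MP_5d68ca_lc
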