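import Pool.Agent.Lib.MP_5d68ca_lc.Names

open FirstOrder FirstOrder.Language Filter Set

namespace Pool.Agent.Lib.MP_5d68ca_lc

variable {L : FirstOrder.Language.{0, 0}} {T : L.Theory} {W K : Type} [LinearOrder W]
  {P : Pt T (Nm L W K × (W → ℕ))}

lemma Inv.move (hP : Inv Nm.lev P) {ι : Type} (F : Finset ι) (ψ : ι → Shape L)
    (d : ι → ℕ → Nm L W K) (pt pt' : ι → W → ℕ) {H : W → ℕ → ℕ} (hH : Mv H)
    (h : ∀ f ∈ F, ∀ r, ∀ i ≤ (d f r).lev, H i (pt f i) = pt' f i) :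
    (∃ x, ∀ f ∈ F, Rz (ψ f) x fun r => P.v (nm Nm.lev (d f r) (pt f))) ↔
      ∃ x, ∀ f ∈ F, Rz (ψ f) x fun r => P.v (nm Nm.lev (d f r) (pt' f)) := by
  obtain ⟨A, -, hA⟩ := exists_atom_exrz (T := T) F ψ fun f r => nm Nm.lev (d f r) (pt f)
  refine (hA P id).symm.trans ((hP H hH A).symm.trans ((hA P _).trans ?_))
  refine exists_congr fun x => forall₂_congr fun f hf => ?_
  rw [iff_iff_eq]
  congr 1
  funext r
  rw [mv_nm, nm_congr _ (h f hf r)]

omit [LinearOrder W] in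
lemma mv_add {y : W → ℕ} (hy : FS y) : Mv fun i n => n + y i := by
  refine ⟨fun i a b hab => by simpa using hab, Set.Finite.subset hy fun i hi h0 => hi ?_⟩
  funext n
  simp [h0]

/-- The orbit along the coordinates in `S` is consistent. -/
def Cons (P : Pt T (Nm L W K × (W → ℕ))) (ψ : K → Shape L) (c : K → ℕ → Nm L W K)
    (S : Set W) : Prop :=
  ∀ F : Finset (K × (W → ℕ)), (∀ f ∈ F, FS f.2 ∧ ∀ i ∉ S, f.2 i = 0) →
    ∃ x : P.M, ∀ f ∈ F, Rz (ψ f.1) x fun r => P.v (nm Nm.lev (c f.1 r) f.2)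

variable {ψ : K → Shape L} {c : K → ℕ → Nm L W K}

lemma good_of_cons (hP : Inv Nm.lev P) {j : W} (h : Cons P ψ c {i | j < i}) : Good P j ψ c := by
  classical
  intro F h1 h2
  rcases F.eq_empty_or_nonempty with rfl | ⟨f₀, hf₀⟩
  · simp
  let z : (W → ℕ) → W → ℕ := fun pt i => if i ≤ j then 0 else pt i
  obtain ⟨x, hx⟩ := h (F.image fun f => (f.1, z f.2)) fun g hg => by
    obtain ⟨f, hf, rfl⟩ := Finset.mem_image.1 hg
    refine ⟨Set.Finite.subset (h1 f hf) fun i hi h0 => hi ?_, fun i hi => if_pos (not_lt.1 hi)⟩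
    simp [z, h0]
  refine (hP.move F (fun f => ψ f.1) (fun f => c f.1) (fun f => z f.2) (fun f => f.2)
    (mv_add (y := fun i => if i ≤ j then f₀.2 i else 0)
      (Set.Finite.subset (h1 f₀ hf₀) fun i hi h0 => hi (by simp [h0]))) fun f hf r i _ => ?_).1
    ⟨x, fun f hf => hx _ (Finset.mem_image_of_mem _ hf)⟩
  by_cases hi : i ≤ j
  · simp [z, hi, h2 f hf f₀ hf₀ i hi]
  · simp [z, hi]

lemma cons_of_bdd (hP : Inv Nm.lev P) {S : Set W} (hc : ∀ κ r, ∀ i ≤ (c κ r).lev, i ∉ S)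
    (h : ∀ F : Finset K, ∃ x : P.M, ∀ κ ∈ F, Rz (ψ κ) x fun r => P.v (nm Nm.lev (c κ r) 0)) :
    Cons P ψ c S := by
  classical
  intro F hF
  obtain ⟨x, hx⟩ := h (F.image Prod.fst)
  refine (hP.move F (fun f => ψ f.1) (fun f => c f.1) (fun _ => 0) (fun f => f.2)
    (mv_add (y := 0) (by simp [FS])) fun f hf r i hi => ?_).1
    ⟨x, fun f hf => hx _ (Finset.mem_image_of_mem _ hf)⟩
  simp [(hF f hf).2 i (hc _ _ i hi)]

lemma cons_empty (h : ∀ F : Finset K, ∃ x : P.M, ∀ κ ∈ F,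
    Rz (ψ κ) x fun r => P.v (nm Nm.lev (c κ r) 0)) : Cons P ψ c ∅ := by
  classical
  intro F hF
  obtain ⟨x, hx⟩ := h (F.image Prod.fst)
  refine ⟨x, fun f hf => ?_⟩
  rw [show f.2 = 0 from funext fun i => (hF f hf).2 i id]
  exact hx _ (Finset.mem_image_of_mem _ hf)

lemma exists_max_cons (h : Cons P ψ c ∅) : ∃ S, Maximal (Cons P ψ c) S := by
  obtain ⟨S, -, hS⟩ := zorn_subset_nonempty {S | Cons P ψ c S} (fun ch h1 h2 h3 => by
    refine ⟨⋃₀ ch, fun F hF => ?_, fun s hs => subset_sUnion_of_mem hs⟩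
    obtain ⟨S, hS, hsub⟩ := h2.directedOn.exists_mem_subset_of_finite_of_subset_sUnion h3
      (F.finite_toSet.biUnion fun f hf => (hF f hf).1)
      (iUnion₂_subset fun f hf i hi => by_contra fun h => hi ((hF f hf).2 i h))
    exact h1 hS F fun f hf => ⟨(hF f hf).1, fun i hi => by_contra fun h =>
      hi (hsub (mem_iUnion₂.2 ⟨f, hf, h⟩))⟩) ∅ h
  exact ⟨S, hS⟩

/-- The point attached to a node of the tree. -/
def Yf (i : ℕ → W) (ρ : ℕ → ℕ) (s : ℕ) (w : W) : ℕ :=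
  ∑ r ∈ Finset.range s, if i (r + 1) = w then ρ r else 0

lemma Yf_fs (i : ℕ → W) (ρ : ℕ → ℕ) (s : ℕ) : FS (Yf i ρ s) := by
  refine ((Finset.range s).finite_toSet.image fun r => i (r + 1)).subset fun w hw => ?_
  by_contra h
  exact hw (Finset.sum_eq_zero fun r hr => if_neg fun e => h ⟨r, hr, e⟩)

lemma Yf_congr (i : ℕ → W) {ρ ρ' : ℕ → ℕ} {s : ℕ} (h : ∀ r < s, ρ r = ρ' r) (w : W) :
    Yf i ρ s w = Yf i ρ' s w :=
  Finset.sum_congr rfl fun r hr => by rw [h r (Finset.mem_range.1 hr)]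

lemma Yf_ext {i : ℕ → W} (hi : StrictMono i) (ρ : ℕ → ℕ) {s m : ℕ} (h : s ≤ m) {w : W}
    (hw : w < i (s + 1)) : Yf i ρ m w = Yf i ρ s w := by
  induction m, h using Nat.le_induction with
  | base => rfl
  | succ m hm ih =>
    rw [Yf, Finset.sum_range_succ, if_neg (hw.trans_le (hi.monotone (by omega))).ne']
    exact ih

lemma exists_strictMono_into (s : Finset ℕ) :
    ∃ h : ℕ → ℕ, StrictMono h ∧ ∀ j < s.card, h j ∈ s := by
  refine ⟨fun j => if hj : j < s.card then s.orderEmbOfFin rfl ⟨j, hj⟩ else s.sup id + 1 + j,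
    fun a b hab => ?_, fun j hj => by simp [hj]⟩
  by_cases hb : b < s.card
  · simpa [hb, hab.trans hb] using hab
  · by_cases ha : a < s.card
    · have := Finset.le_sup (f := id) (s.orderEmbOfFin_mem rfl ⟨a, ha⟩)
      simp only [hb, ha, dif_pos, dif_neg, not_false_eq_true]
      simp only [id] at this
      omega
    · simpa [hb, ha] using hab

theorem good_or_tree [Countable L.Symbols] (hW : ∀ s : Set W, s.Countable → ∃ j, ∀ i ∈ s, i < j)
    (hP : Inv Nm.lev P)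
    (h : ∀ F : Finset K, ∃ x : P.M, ∀ κ ∈ F, Rz (ψ κ) x fun r => P.v (nm Nm.lev (c κ r) 0)) :
    (∃ j, Good P j ψ c) ∨ ∃ (m k : ℕ) (κ : Fin m → K) (b : List ℕ → Fin m → ℕ → P.M),
      (∀ (η : List ℕ) (s : Finset ℕ), s.card = k →
        ¬∃ x, ∀ l ∈ s, ∀ t, Rz (ψ (κ t)) x (b (η ++ [l]) t)) ∧
      ∀ (ρ : ℕ → ℕ) (n : ℕ), ∃ x, ∀ j ≤ n, ∀ t, Rz (ψ (κ t)) x (b ((List.range j).map ρ) t) := by
  classical
  obtain ⟨S, hS⟩ := exists_max_cons (cons_empty h)
  by_cases hb : ∃ j, ∀ i, j < i → i ∈ S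
  · obtain ⟨j, hj⟩ := hb
    exact Or.inl ⟨j, good_of_cons hP fun F hF => hS.1 F fun f hf =>
      ⟨(hF f hf).1, fun i hi => (hF f hf).2 i fun h => hi (hj i h)⟩⟩
  right
  push Not at hb
  have : Countable (Shape L) := by unfold Shape; infer_instance
  let Dat : (Σ m : ℕ, Fin m → Shape L) × ℕ → W → Prop := fun σ i =>
    i ∉ S ∧ ∃ (κ : Fin σ.1.1 → K) (pt : Fin σ.1.1 → W → ℕ), (∀ t, ψ (κ t) = σ.1.2 t) ∧
      (∀ t, FS (pt t) ∧ (∀ w ∉ insert i S, pt t w = 0) ∧ pt t i < σ.2) ∧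
      ¬∃ x, ∀ t, Rz (ψ (κ t)) x fun r => P.v (nm Nm.lev (c (κ t) r) (pt t))
  have h1 : ∀ i ∉ S, ∃ σ, Dat σ i := by
    intro i hi
    have : ¬Cons P ψ c (insert i S) := fun hc =>
      hi (hS.2 hc (subset_insert _ _) (mem_insert _ _))
    simp only [Cons, not_forall] at this
    obtain ⟨F, hF, hn⟩ := this
    let e := F.equivFin.symm
    refine ⟨(⟨_, fun t => ψ (e t).1.1⟩, F.sup (fun f => f.2 i) + 1), hi, fun t => (e t).1.1,
      fun t => (e t).1.2, fun t => rfl, fun t => ⟨(hF _ (e t).2).1, (hF _ (e t).2).2,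
        Nat.lt_succ_of_le (Finset.le_sup (f := fun f : K × (W → ℕ) => f.2 i) (e t).2)⟩, ?_⟩
    rintro ⟨x, hx⟩
    refine hn ⟨x, fun f hf => ?_⟩
    simpa [e] using hx (F.equivFin ⟨f, hf⟩)
  have h2 : ∃ σ, ∀ j, ∃ i, j < i ∧ Dat σ i := by
    by_contra hc
    push Not at hc
    choose g hg using hc
    obtain ⟨j, hj⟩ := hW _ (countable_range g)
    obtain ⟨i, hi, hiS⟩ := hb j
    obtain ⟨σ, hσ⟩ := h1 i hiS
    exact hg σ i ((hj _ ⟨σ, rfl⟩).trans hi) hσ
  obtain ⟨⟨⟨m, sh⟩, k⟩, h2⟩ := h2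
  choose nx hlt hnS κ pt hsh hpt hn using h2
  have h3 : ∀ j, ∃ j', nx j < j' ∧ ∀ t r, (c (κ j t) r).lev < j' := fun j => by
    obtain ⟨j', hj'⟩ := hW (insert (nx j) (range fun a : Fin m × ℕ => (c (κ j a.1) a.2).lev))
      ((countable_range _).insert _)
    exact ⟨j', hj' _ (Or.inl rfl), fun t r => hj' _ (Or.inr ⟨(t, r), rfl⟩)⟩
  choose bd hbd1 hbd2 using h3
  obtain ⟨j₀, -⟩ := hW ∅ countable_empty
  let jj : ℕ → W := fun s => bd^[s] j₀
  have hjj : ∀ s, jj (s + 1) = bd (jj s) := fun s => Function.iterate_succ_apply' _ _ _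
  let i : ℕ → W := fun s => nx (jj s)
  have hi : StrictMono i := strictMono_nat_of_lt_succ fun s =>
    (hbd1 (jj s)).trans (hjj s ▸ hlt (jj (s + 1)))
  have hlev : ∀ s t r, (c (κ (jj s) t) r).lev < i (s + 1) := fun s t r =>
    (hbd2 (jj s) t r).trans (hjj s ▸ hlt (jj (s + 1)))
  let q : ℕ → Fin m → W → ℕ := fun s t => Function.update (pt (jj s) t) (i s) 0
  refine ⟨m, k, κ j₀, fun η t r => P.v (nm Nm.lev (c (κ (jj η.length) t) r)
    fun w => q η.length t w + Yf i (fun r => η.getD r 0) η.length w), fun η s hs => ?_,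
    fun ρ n => ?_⟩
  · rintro ⟨x, hx⟩
    obtain ⟨g, hg, hgs⟩ := exists_strictMono_into s
    refine hn (jj (η.length + 1)) ?_
    obtain ⟨y, hy⟩ := (hP.move Finset.univ (fun t => ψ (κ (jj (η.length + 1)) t))
      (fun t => c (κ (jj (η.length + 1)) t)) (pt (jj (η.length + 1)))
      (fun t w => q (η.length + 1) t w + Yf i (fun r => (η ++ [g (pt (jj (η.length + 1)) t
        (i (η.length + 1)))]).getD r 0) (η.length + 1) w)
      ((mv_add (Yf_fs i (fun r => η.getD r 0) η.length)).update (i (η.length + 1)) hg)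
      fun t _ r w _ => by
        rw [Yf, Finset.sum_range_succ, ← Yf, Yf_congr i (ρ' := fun r => η.getD r 0)
          fun r hr => List.getD_append _ _ _ _ hr]
        by_cases hw : w = i (η.length + 1)
        · have : Yf i (fun r => η.getD r 0) η.length (i (η.length + 1)) = 0 :=
            Finset.sum_eq_zero fun r hr => if_neg (hi (by simpa using hr)).ne
          rw [hw, this]
          simp [q]
        · simp [q, hw, Ne.symm hw]).2 ⟨x, fun t _ => by
      have := hx _ (hgs _ (hs ▸ (hpt (jj (η.length + 1)) t).2.2)) t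
      rw [hsh, ← hsh (jj (η.length + 1))] at this
      simpa only [List.length_append, List.length_singleton] using this⟩
    exact ⟨y, fun t => hy t (Finset.mem_univ t)⟩
  · obtain ⟨x, hx⟩ := hS.1 ((Finset.range (n + 1) ×ˢ Finset.univ).image
      fun a : ℕ × Fin m => (κ (jj a.1) a.2, q a.1 a.2)) fun f hf => by
        obtain ⟨a, -, rfl⟩ := Finset.mem_image.1 hf
        refine ⟨Set.Finite.subset (hpt (jj a.1) a.2).1 fun w hw h0 => hw ?_, fun w hw => ?_⟩
        · by_cases hwi : w = i a.1 <;> simp [q, hwi, h0]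
        · by_cases hwi : w = i a.1
          · simp [q, hwi]
          · simpa [q, hwi] using (hpt (jj a.1) a.2).2.1 w fun h => h.elim hwi hw
    obtain ⟨y, hy⟩ := (hP.move (Finset.range (n + 1) ×ˢ Finset.univ)
      (fun a : ℕ × Fin m => ψ (κ (jj a.1) a.2)) (fun a => c (κ (jj a.1) a.2)) (fun a => q a.1 a.2)
      (fun a w => q a.1 a.2 w + Yf i (fun r => ((List.range a.1).map ρ).getD r 0) a.1 w)
      (mv_add (Yf_fs i ρ n)) fun a ha r w hw => by
        have ha' : a.1 ≤ n := by simpa [Nat.lt_succ_iff] using ha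
        rw [Yf_ext hi ρ ha' (hw.trans_lt (hlev _ _ _))]
        exact congrArg _ (Yf_congr i (fun r hr => by simp [hr]) w)).1
      ⟨x, fun a ha => hx _ (Finset.mem_image_of_mem _ ha)⟩
    refine ⟨y, fun j hj t => ?_⟩
    have := hy (j, t) (by simpa [Nat.lt_succ_iff] using hj)
    rw [hsh, ← hsh j₀] at this
    simpa only [List.length_map, List.length_range] using this

end Pool.Agent.Lib.MP_5d68ca_lc
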