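import Mathlib

open Filter

namespace Pool.Agent.Lib.MP_5d68ca_lc

/-- Prepend a value to a sequence. -/
def cns (a : ℕ) (h : ℕ → ℕ) : ℕ → ℕ
  | 0 => a
  | j + 1 => h j

/-- Iterated limits along the hyperfilter. -/
noncomputable def tens : ℕ → Ultrafilter (ℕ → ℕ)
  | 0 => (hyperfilter ℕ).map fun a j => a + j
  | n + 1 => (hyperfilter ℕ).bind fun a => (tens n).map (cns a)

lemma eventually_ubind {α β : Type} (u : Ultrafilter α) (m : α → Ultrafilter β) (p : β → Prop) :
    (∀ᶠ x in (u.bind m : Ultrafilter β), p x) ↔ ∀ᶠ a in u, ∀ᶠ x in m a, p x := Iff.rfl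

lemma eventually_tens_succ (n : ℕ) (p : (ℕ → ℕ) → Prop) :
    (∀ᶠ h in tens (n + 1), p h) ↔ ∀ᶠ a in hyperfilter ℕ, ∀ᶠ h in tens n, p (cns a h) := Iff.rfl

lemma eventually_gt_hyper (a : ℕ) : ∀ᶠ b in hyperfilter ℕ, a < b :=
  Nat.hyperfilter_le_atTop (eventually_gt_atTop a)

lemma tens_mono (n : ℕ) : ∀ a, ∀ᶠ h : ℕ → ℕ in (tens n : Filter (ℕ → ℕ)), StrictMono h ∧ a < h 0 := by
  induction n with
  | zero =>
    intro a
    refine (eventually_gt_hyper a).mono fun b hb => ⟨fun i j hij => ?_, hb⟩
    simpa using hij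
  | succ n ih =>
    intro a
    rw [eventually_tens_succ]
    filter_upwards [eventually_gt_hyper a] with b hb
    filter_upwards [ih b] with h hh
    refine ⟨strictMono_nat_of_lt_succ fun j => ?_, hb⟩
    cases j with
    | zero => exact hh.2
    | succ j => exact hh.1 (Nat.lt_succ_self j)

/-- The predicate depends only on the first `n` values. -/
def DepLt (n : ℕ) (F : (ℕ → ℕ) → Prop) : Prop :=
  ∀ h h' : ℕ → ℕ, (∀ j < n, h j = h' j) → (F h ↔ F h')

lemma DepLt.const {F : (ℕ → ℕ) → Prop} (hF : DepLt 0 F) (u : Ultrafilter (ℕ → ℕ))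
    (g : (ℕ → ℕ) → ℕ → ℕ) : (∀ᶠ h in u, F (g h)) ↔ F id := by
  have : ∀ h, F (g h) ↔ F id := fun h => hF _ _ fun j hj => absurd hj (Nat.not_lt_zero j)
  simp only [this, eventually_const]

lemma tens_spread (m : ℕ) : ∀ (n : ℕ) (h0 : ℕ → ℕ) (F : (ℕ → ℕ) → Prop), StrictMono h0 →
    DepLt n F → (∀ j < n, h0 j < m) → ((∀ᶠ h in tens m, F (h ∘ h0)) ↔ ∀ᶠ h in tens n, F h) := by
  induction m with
  | zero =>
    intro n h0 F _ hF hm
    obtain rfl : n = 0 := by
      by_contra hn
      exact absurd (hm 0 (Nat.pos_of_ne_zero hn)) (Nat.not_lt_zero _)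
    rw [hF.const, hF.const (tens 0) fun h => h]
  | succ m ih =>
    intro n h0 F h0m hF hm
    cases n with
    | zero => rw [hF.const, hF.const (tens 0) fun h => h]
    | succ n =>
      rw [eventually_tens_succ m]
      by_cases h00 : h0 0 = 0
      · rw [eventually_tens_succ n]
        have hpos : ∀ j, 0 < h0 (j + 1) := fun j => h00 ▸ h0m (Nat.succ_pos j)
        refine eventually_congr (Eventually.of_forall fun a => ?_)
        rw [← ih n (fun j => h0 (j + 1) - 1) (fun h => F (cns a h))
          (fun i j hij => by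
            have : h0 (i + 1) < h0 (j + 1) := h0m (Nat.succ_lt_succ hij)
            have := hpos i
            simp only at *
            omega)
          (fun h h' hh => hF _ _ fun j hj => by
            cases j with
            | zero => rfl
            | succ j => exact hh j (by omega))
          (fun j hj => by have := hm (j + 1) (by omega); have := hpos j; omega)]
        have e : ∀ h : ℕ → ℕ, cns a h ∘ h0 = cns a (h ∘ fun j => h0 (j + 1) - 1) := by
          intro h
          funext j
          cases j with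
          | zero => simp [h00, cns]
          | succ j =>
            obtain ⟨t, ht⟩ := Nat.exists_eq_succ_of_ne_zero (hpos j).ne'
            simp [ht, cns]
        simp only [e]
      · have hpos : ∀ j, 0 < h0 j := fun j =>
          (Nat.pos_of_ne_zero h00).trans_le (h0m.monotone (Nat.zero_le j))
        have e : ∀ (a : ℕ) (h : ℕ → ℕ), cns a h ∘ h0 = h ∘ fun j => h0 j - 1 := by
          intro a h
          funext j
          obtain ⟨t, ht⟩ := Nat.exists_eq_succ_of_ne_zero (hpos j).ne'
          simp [ht, cns]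
        simp only [e, eventually_const]
        exact ih (n + 1) (fun j => h0 j - 1) F
          (fun i j hij => by
            have := h0m hij
            have := hpos i
            simp only at *
            omega) hF (fun j hj => by have := hm j hj; have := hpos j; omega)

theorem exists_spread : ∃ w : Ultrafilter (ℕ → ℕ), (∀ᶠ h : ℕ → ℕ in (w : Filter (ℕ → ℕ)), StrictMono h) ∧
    ∀ (n : ℕ) (F : (ℕ → ℕ) → Prop), DepLt n F → ∀ h0 : ℕ → ℕ, StrictMono h0 →
      ((∀ᶠ h in w, F (h ∘ h0)) ↔ ∀ᶠ h in w, F h) := by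
  refine ⟨(hyperfilter ℕ).bind tens, ?_, fun n F hF h0 h0m => ?_⟩
  · rw [eventually_ubind]
    exact Eventually.of_forall fun m => (tens_mono m 0).mono fun h hh => hh.1
  · have key : ∀ g : ℕ → ℕ, StrictMono g →
        ((∀ᶠ h in (hyperfilter ℕ).bind tens, F (h ∘ g)) ↔ ∀ᶠ h in tens n, F h) := by
      intro g hg
      rw [eventually_ubind, ← eventually_const (f := (hyperfilter ℕ : Filter ℕ))
        (p := ∀ᶠ h in tens n, F h)]
      refine eventually_congr ((eventually_gt_hyper (g n)).mono fun m hm => ?_)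
      exact tens_spread m n g F hg hF fun j hj => (hg hj).trans hm
    rw [key h0 h0m, ← key id strictMono_id]
    rfl

end Pool.Agent.Lib.MP_5d68ca_lc
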